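import Pool.Agent.Helper13.HG.Defs

/-!
# Places of number fields: conjugation, Frobenius elements, units outside `M`
-/

set_option autoImplicit false

namespace Pool.Agent.HG

open Polynomial NumberField IsDedekindDomain
open scoped Pointwise

section val

variable {L : Type} [Field L] [NumberField L] (P : Pr L)

theorem val_int (a : 𝓞 L) : P.valuation L (a : L) ≤ 1 := P.valuation_le_one a

theorem val_int_lt (a : 𝓞 L) : P.valuation L (a : L) < 1 ↔ a ∈ P.asIdeal :=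
  P.valuation_lt_one_iff_mem a

theorem val_int_one (a : 𝓞 L) : P.valuation L (a : L) = 1 ↔ a ∉ P.asIdeal := by
  rw [← val_int_lt, not_lt]
  exact ⟨fun h => h.ge, fun h => le_antisymm (val_int P a) h⟩

theorem val_of_isIntegral {z : L} (hz : IsIntegral ℤ z) : P.valuation L z ≤ 1 :=
  val_int P ⟨z, hz⟩

theorem val_ne_zero {z : L} (hz : z ≠ 0) : P.valuation L z ≠ 0 := (Valuation.ne_zero_iff _).2 hz

theorem val_lt_iff (z : L) : P.valuation L z < 1 ↔ z = 0 ∨ ¬ P.valuation L z⁻¹ ≤ 1 := by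
  by_cases hz : z = 0
  · simp [hz]
  · have h0 := val_ne_zero P hz
    rw [map_inv₀, inv_le_one₀ (zero_lt_iff.2 h0)]
    simp [hz]

theorem val_eq_iff (z : L) : P.valuation L z = 1 ↔ P.valuation L z ≤ 1 ∧ P.valuation L z⁻¹ ≤ 1 ∧
    z ≠ 0 := by
  by_cases hz : z = 0
  · simp [hz]
  · have h0 := val_ne_zero P hz
    rw [map_inv₀, inv_le_one₀ (zero_lt_iff.2 h0)]
    constructor
    · intro h
      exact ⟨h.le, h.ge, hz⟩
    · rintro ⟨h1, h2, -⟩
      exact le_antisymm h1 h2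

theorem exists_int_sub {z : L} (hz : P.valuation L z ≤ 1) :
    ∃ a : 𝓞 L, P.valuation L ((a : L) - z) < 1 := by
  obtain ⟨a, ha⟩ := P.exists_valuation_sub_lt_of_integer (K := L) hz 1
  exact ⟨a, by simpa using ha⟩

theorem exists_frac {z : L} (hz : P.valuation L z ≤ 1) :
    ∃ a b : 𝓞 L, b ∉ P.asIdeal ∧ z * (b : L) = a := by
  obtain ⟨n, ⟨d, hd⟩, h⟩ := P.exists_primeCompl_mul_eq_of_integer (K := L) z hz
  exact ⟨n, d, hd, h⟩

end val

section under

variable {L : Type} [Field L] [NumberField L]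

/-- an integer in a prime above `p` is a multiple of `p` -/
theorem dvd_of_mem {P : Pr L} {p : ℕ} (hp : p.Prime) (hP : (p : 𝓞 L) ∈ P.asIdeal) {n : ℤ}
    (hn : (n : 𝓞 L) ∈ P.asIdeal) : (p : ℤ) ∣ n := by
  by_contra h
  have h1 : IsCoprime (p : ℤ) n := by
    rw [Int.isCoprime_iff_gcd_eq_one]
    exact (Int.isCoprime_iff_gcd_eq_one.1 ((Nat.prime_iff_prime_int.1 hp).coprime_iff_not_dvd.2 h))
  obtain ⟨a, b, hab⟩ := h1
  apply P.isPrime.ne_top
  rw [Ideal.eq_top_iff_one]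
  have h2 : (1 : 𝓞 L) = (a : 𝓞 L) * (p : 𝓞 L) + (b : 𝓞 L) * (n : 𝓞 L) := by
    have := congrArg (fun t : ℤ => (t : 𝓞 L)) hab
    push_cast at this
    exact this.symm
  rw [h2]
  exact add_mem (Ideal.mul_mem_left _ _ hP) (Ideal.mul_mem_left _ _ hn)

theorem exists_prime (P : Pr L) : ∃ p : ℕ, p.Prime ∧ (p : 𝓞 L) ∈ P.asIdeal := by
  have h0 : Ideal.absNorm P.asIdeal ≠ 0 := by
    rw [Ne, Ideal.absNorm_eq_zero_iff]
    exact P.ne_bot
  have h1 := Ideal.absNorm_mem P.asIdeal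
  have h2 : ∀ n : ℕ, n ≠ 0 → (n : 𝓞 L) ∈ P.asIdeal → ∃ p : ℕ, p.Prime ∧ (p : 𝓞 L) ∈ P.asIdeal := by
    intro n
    induction n using Nat.recOnMul with
    | zero => intro h; exact absurd rfl h
    | one =>
      intro _ h
      rw [Nat.cast_one, ← Ideal.eq_top_iff_one] at h
      exact absurd h P.isPrime.ne_top
    | prime p hp =>
      intro _ h
      exact ⟨p, hp, h⟩
    | mul a b ha hb =>
      intro h hab
      rw [Nat.cast_mul] at hab
      rcases P.isPrime.mem_or_mem hab with h' | h'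
      · exact ha (left_ne_zero_of_mul h) h'
      · exact hb (right_ne_zero_of_mul h) h'
  exact h2 _ h0 h1

/-- finitely many nonzero elements are units outside some `M` -/
theorem exists_M_unit (T : Finset L) (hT : ∀ z ∈ T, z ≠ 0) : ∃ M : ℕ, M ≠ 0 ∧
    ∀ (p : ℕ) (P : Pr L), p.Prime → ¬ p ∣ M → (p : 𝓞 L) ∈ P.asIdeal →
      ∀ z ∈ T, P.valuation L z = 1 := by
  classical
  have h1 : ∀ a : 𝓞 L, a ≠ 0 → ∃ M : ℕ, M ≠ 0 ∧ ∀ (p : ℕ) (P : Pr L), p.Prime → ¬ p ∣ M →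
      (p : 𝓞 L) ∈ P.asIdeal → P.valuation L (a : L) = 1 := by
    intro a ha
    refine ⟨Ideal.absNorm (Ideal.span {a}), ?_, ?_⟩
    · rw [Ne, Ideal.absNorm_eq_zero_iff, Ideal.span_singleton_eq_bot]
      exact ha
    · intro p P hp hpM hP
      rw [val_int_one]
      intro h
      apply hpM
      have h2 : ((Ideal.absNorm (Ideal.span {a}) : ℤ) : 𝓞 L) ∈ P.asIdeal := by
        have h3 := Ideal.absNorm_mem (Ideal.span {a})
        obtain ⟨w, hw⟩ := Ideal.mem_span_singleton.1 h3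
        rw [Int.cast_natCast, hw]
        exact Ideal.mul_mem_right _ _ h
      exact_mod_cast dvd_of_mem hp hP h2
  induction T using Finset.induction_on with
  | empty => exact ⟨1, one_ne_zero, fun p P _ _ _ z hz => absurd hz (by simp)⟩
  | insert z T _ ih =>
    obtain ⟨M, hM, h2⟩ := ih fun z hz => hT z (Finset.mem_insert_of_mem hz)
    have hz := hT z (Finset.mem_insert_self _ _)
    obtain ⟨a, b, hb, hab⟩ := IsFractionRing.div_surjective (A := 𝓞 L) z
    have hb0 : b ≠ 0 := nonZeroDivisors.ne_zero hb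
    have ha0 : a ≠ 0 := by
      rintro rfl
      rw [map_zero, zero_div] at hab
      exact hz hab.symm
    obtain ⟨Ma, hMa, ha⟩ := h1 a ha0
    obtain ⟨Mb, hMb, hb'⟩ := h1 b hb0
    refine ⟨M * Ma * Mb, mul_ne_zero (mul_ne_zero hM hMa) hMb, ?_⟩
    intro p P hp hpM hP w hw
    rcases Finset.mem_insert.1 hw with rfl | hw
    · rw [← hab, map_div₀]
      rw [ha p P hp (fun h => hpM ((h.mul_left _).mul_right _)) hP,
        hb' p P hp (fun h => hpM (h.mul_left _)) hP, div_one]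
    · exact h2 p P hp (fun h => hpM ((h.mul_right _).mul_right _)) hP w hw

end under

section conj

variable {k L : Type} [Field k] [NumberField k] [Field L] [NumberField L] [Algebra k L]

omit [NumberField k] [NumberField L] in
theorem coe_smul' (σ : L ≃ₐ[k] L) (a : 𝓞 L) : ((σ • a : 𝓞 L) : L) = σ (a : L) := rfl

theorem val_le_conj {σ : L ≃ₐ[k] L} {P P' : Pr L}
    (h : ∀ a : 𝓞 L, a ∈ P.asIdeal ↔ σ • a ∈ P'.asIdeal) (z : L) :
    P.valuation L z ≤ 1 ↔ P'.valuation L (σ z) ≤ 1 := by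
  have key : ∀ (σ : L ≃ₐ[k] L) (P P' : Pr L) (_ : ∀ a : 𝓞 L, a ∈ P.asIdeal ↔ σ • a ∈ P'.asIdeal)
      (z : L), P.valuation L z ≤ 1 → P'.valuation L (σ z) ≤ 1 := by
    intro σ P P' h z hz
    obtain ⟨a, b, hb, hab⟩ := exists_frac P hz
    have h1 : σ z * ((σ • b : 𝓞 L) : L) = ((σ • a : 𝓞 L) : L) := by
      rw [coe_smul', coe_smul', ← hab, map_mul]
    have h2 : P'.valuation L ((σ • b : 𝓞 L) : L) = 1 := by
      rw [val_int_one, ← h]
      exact hb
    have h3 := congrArg (P'.valuation L) h1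
    rw [map_mul, h2, mul_one] at h3
    rw [h3]
    exact val_int _ _
  refine ⟨key σ P P' h z, fun h' => ?_⟩
  have h1 := key σ⁻¹ P' P (fun a => by rw [h, smul_inv_smul]) (σ z) h'
  have h2 : σ⁻¹ (σ z) = z := by
    change (σ⁻¹ * σ) z = z
    rw [inv_mul_cancel]; rfl
  rwa [h2] at h1

theorem val_lt_conj {σ : L ≃ₐ[k] L} {P P' : Pr L}
    (h : ∀ a : 𝓞 L, a ∈ P.asIdeal ↔ σ • a ∈ P'.asIdeal) (z : L) :
    P.valuation L z < 1 ↔ P'.valuation L (σ z) < 1 := by
  rw [val_lt_iff, val_lt_iff, ← map_inv₀, ← val_le_conj h]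
  simp

theorem val_eq_conj {σ : L ≃ₐ[k] L} {P P' : Pr L}
    (h : ∀ a : 𝓞 L, a ∈ P.asIdeal ↔ σ • a ∈ P'.asIdeal) (z : L) :
    P.valuation L z = 1 ↔ P'.valuation L (σ z) = 1 := by
  rw [val_eq_iff, val_eq_iff, ← map_inv₀, ← val_le_conj h, ← val_le_conj h]
  simp

/-- the Galois group acts transitively on the primes above `v` -/
theorem exists_conj' [IsGalois k L] {v : Pr k} {P P' : Pr L}
    (h : P.asIdeal.comap (algebraMap (𝓞 k) (𝓞 L)) = v.asIdeal)
    (h' : P'.asIdeal.comap (algebraMap (𝓞 k) (𝓞 L)) = v.asIdeal) :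
    ∃ σ : L ≃ₐ[k] L, ∀ a : 𝓞 L, a ∈ P.asIdeal ↔ σ • a ∈ P'.asIdeal := by
  have := P.isPrime
  have := P'.isPrime
  obtain ⟨g, hg⟩ := Algebra.IsInvariant.exists_smul_of_under_eq (𝓞 k) (𝓞 L) (L ≃ₐ[k] L)
    P.asIdeal P'.asIdeal (by rw [Ideal.under_def, Ideal.under_def, h, h'])
  refine ⟨g, fun a => ?_⟩
  rw [hg, Ideal.smul_mem_pointwise_smul_iff]

/-- there is a prime above `v` -/
theorem exists_over (v : Pr k) : ∃ P : Pr L, P.asIdeal.comap (algebraMap (𝓞 k) (𝓞 L)) = v.asIdeal := by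
  have := v.isPrime
  obtain ⟨Q, hQ, hQv⟩ := Ideal.exists_ideal_over_prime_of_isIntegral_of_isDomain
    (R := 𝓞 k) (S := 𝓞 L) v.asIdeal (by
      rw [(RingHom.injective_iff_ker_eq_bot _).1 (FaithfulSMul.algebraMap_injective (𝓞 k) (𝓞 L))]
      exact bot_le)
  refine ⟨⟨Q, hQ, ?_⟩, hQv⟩
  rintro rfl
  apply v.ne_bot
  rw [← hQv, Ideal.comap_bot_of_injective _ (FaithfulSMul.algebraMap_injective (𝓞 k) (𝓞 L))]

/-- the existence of Frobenius elements -/
theorem exists_frob [IsGalois k L] {v : Pr k} {P : Pr L}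
    (h : P.asIdeal.comap (algebraMap (𝓞 k) (𝓞 L)) = v.asIdeal) :
    ∃ σ : L ≃ₐ[k] L, (∀ a : 𝓞 L, a ∈ P.asIdeal ↔ σ • a ∈ P.asIdeal) ∧
      ∀ z : L, P.valuation L z ≤ 1 → P.valuation L (σ z - z ^ nm v) < 1 := by
  have hP := P.isPrime
  have hfin : Finite (𝓞 L ⧸ P.asIdeal) := Ideal.finiteQuotientOfFreeOfNeBot _ P.ne_bot
  obtain ⟨σ, hσ⟩ := IsArithFrobAt.exists_of_isInvariant (𝓞 k) (L ≃ₐ[k] L) P.asIdeal
  have hN : Nat.card (𝓞 k ⧸ P.asIdeal.under (𝓞 k)) = nm v := by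
    rw [Ideal.under_def, h]
    rfl
  have hN0 : nm v ≠ 0 := by
    unfold nm
    rw [Ne, Ideal.absNorm_eq_zero_iff]
    exact v.ne_bot
  have hfr : ∀ a : 𝓞 L, σ • a - a ^ nm v ∈ P.asIdeal := by
    intro a
    have := hσ a
    rwa [hN] at this
  have hst : ∀ a : 𝓞 L, a ∈ P.asIdeal ↔ σ • a ∈ P.asIdeal := by
    intro a
    constructor
    · intro ha
      have h1 := add_mem (hfr a) (Ideal.pow_mem_of_mem _ ha (nm v) (Nat.pos_of_ne_zero hN0))
      rwa [sub_add_cancel] at h1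
    · intro ha
      have h1 := sub_mem ha (hfr a)
      rw [sub_sub_cancel] at h1
      exact hP.mem_of_pow_mem _ h1
  refine ⟨σ, hst, fun z hz => ?_⟩
  obtain ⟨a, ha⟩ := exists_int_sub P hz
  have h1 : σ z - z ^ nm v = ((σ • a - a ^ nm v : 𝓞 L) : L) - σ ((a : L) - z) +
      ((a : L) ^ nm v - z ^ nm v) := by
    push_cast
    rw [AlgEquiv.smul_def, map_sub]
    ring
  rw [h1]
  refine Valuation.map_add_lt _ ?_ ?_
  · rw [sub_eq_add_neg]
    refine Valuation.map_add_lt _ ((val_int_lt _ _).2 (hfr a)) ?_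
    rw [Valuation.map_neg]
    exact (val_lt_conj hst _).1 ha
  · have h2 : (a : L) ^ nm v - z ^ nm v = ((a : L) - z) *
        ∑ i ∈ Finset.range (nm v), (a : L) ^ i * z ^ (nm v - 1 - i) := by
      rw [mul_comm, (Commute.all (a : L) z).geom_sum₂_mul]
    rw [h2, map_mul]
    refine mul_lt_one_of_lt_of_le ha ?_
    refine Valuation.map_sum_le _ fun i _ => ?_
    rw [map_mul, map_pow, map_pow]
    exact mul_le_one' (pow_le_one' (val_int _ _) _) (pow_le_one' hz _)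

end conj

end Pool.Agent.HG
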