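import Pool.Agent.Helper13.HG.Base
import Pool.Agent.Helper99.HG.Defs

/-!
# The data of the counting problem of a polynomial `f`
-/

set_option autoImplicit false

namespace Pool.Agent.HG

open Polynomial NumberField IsDedekindDomain
open scoped Pointwise IntermediateField

noncomputable section

/-- `v` does not lie above a divisor of `M` -/
def Gd {k : Type} [Field k] [NumberField k] (M : ℕ) (v : Pr k) : Prop :=
  ∃ p : ℕ, p.Prime ∧ ¬ p ∣ M ∧ (p : 𝓞 k) ∈ v.asIdeal

/-- The polynomial `B` is a Thue polynomial for the prime `v` (below `P`, above `p`) and the root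
`o` (the conclusion of `StmtThue`). -/
structure IsThue {k L : Type} [Field k] [NumberField k] [Field L] [NumberField L] [Algebra k L]
    (f : k[X]) (M : ℕ) (K : ℝ) (p : ℕ) (v : Pr k) (P : Pr L) (o : L) (B : k[X]) : Prop where
  int : ∀ θ ∈ f.rootSet L, minpoly k θ = minpoly k o → IsIntegral ℤ (aeval θ B)
  ne : ∀ θ ∈ f.rootSet L, minpoly k θ = minpoly k o → aeval θ B ≠ 0
  small : ∀ θ ∈ f.rootSet L, minpoly k θ = minpoly k o → ∀ φ : L →+* ℂ, ‖φ (aeval θ B)‖ ≤
    K * (nm v : ℝ) ^ ((1 : ℝ) / (Module.finrank ℚ k * (minpoly k o).natDegree : ℕ))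
  norm : ∃ a : ℕ, a ≠ 0 ∧ (a : ℝ) ≤ K ∧ ∀ θ ∈ f.rootSet L, minpoly k θ = minpoly k o →
    |Algebra.norm ℚ (aeval (IntermediateField.AdjoinSimple.gen k θ) B)| = a * nm v
  unit : ∀ (p' : ℕ) (v' : Pr k) (P' : Pr L), Over M p' v' P' → v' ≠ v →
    ∀ θ ∈ f.rootSet L, minpoly k θ = minpoly k o → P'.valuation L (aeval θ B) = 1
  above : ∀ a' : 𝓞 k, P.valuation L (algebraMap k L a' - o) < 1 →
    ∀ P' : Pr L, Over M p v P' → ∀ θ ∈ f.rootSet L, minpoly k θ = minpoly k o →
      (P'.valuation L (algebraMap k L a' - θ) = 1 → P'.valuation L (aeval θ B) = 1) ∧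
      (P'.valuation L (algebraMap k L a' - θ) < 1 →
        P'.valuation L (aeval θ B) = P'.valuation L (p : L))

/-- The choices made for `f`: a number `M`, for every prime `v` of `k` a prime `P v` of `L` above it,
a Frobenius element `F v` at `P v`, and Thue polynomials `B v o`. -/
structure Ctx (k L : Type) [Field k] [NumberField k] [Field L] [NumberField L] [Algebra k L]
    [IsGalois k L] (f : k[X]) where
  M : ℕ
  K : ℝ
  P : Pr k → Pr L
  F : Pr k → (L ≃ₐ[k] L)
  B : Pr k → L → k[X]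
  sepf : f.Separable
  splits : (f.map (algebraMap k L)).Splits
  hM : M ≠ 0
  two : 2 ∣ M
  hK : 1 ≤ K
  -- the roots of `f` are integral and different at the primes not above `M`
  int : ∀ (p : ℕ) (v : Pr k) (P : Pr L), Over M p v P → ∀ θ ∈ f.rootSet L, P.valuation L θ ≤ 1
  sep : ∀ (p : ℕ) (v : Pr k) (P : Pr L), Over M p v P → ∀ θ ∈ f.rootSet L, ∀ θ' ∈ f.rootSet L,
    θ ≠ θ' → P.valuation L (θ - θ') = 1
  lead : ∀ (p : ℕ) (v : Pr k), p.Prime → ¬ p ∣ M → (p : 𝓞 k) ∈ v.asIdeal →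
    v.valuation k f.leadingCoeff = 1
  -- the primes not above `M` are unramified
  unif : ∀ (p : ℕ) (v : Pr k), p.Prime → ¬ p ∣ M → (p : 𝓞 k) ∈ v.asIdeal → ∀ z : k, z ≠ 0 →
    ∃ a : ℤ, v.valuation k (z * (p : k) ^ a) = 1
  unifL : ∀ (p : ℕ) (P : Pr L), p.Prime → ¬ p ∣ M → (p : 𝓞 L) ∈ P.asIdeal → ∀ z : L, z ≠ 0 →
    ∃ a : ℤ, P.valuation L (z * (p : L) ^ a) = 1
  comap : ∀ v, (P v).asIdeal.comap (algebraMap (𝓞 k) (𝓞 L)) = v.asIdeal
  stab : ∀ v, ∀ a : 𝓞 L, a ∈ (P v).asIdeal ↔ F v • a ∈ (P v).asIdeal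
  frob : ∀ v, ∀ z : L, (P v).valuation L z ≤ 1 → (P v).valuation L (F v z - z ^ nm v) < 1
  thue : ∀ (p : ℕ) (v : Pr k), Over M p v (P v) → ∀ o ∈ f.rootSet L, F v o = o →
    IsThue f M K p v (P v) o (B v o)

namespace Ctx

variable {k L : Type} [Field k] [NumberField k] [Field L] [NumberField L] [Algebra k L]
  [IsGalois k L] {f : k[X]} (X : Ctx k L f)

/-- the roots of `f` -/
def Ω (_ : Ctx k L f) : Finset L := (f.rootSet_finite L).toFinset

theorem mem_Ω (θ : L) : θ ∈ X.Ω ↔ θ ∈ f.rootSet L := Set.Finite.mem_toFinset _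

/-- the representative of the orbit of `θ` under the Frobenius element at `P v` -/
def rep (v : Pr k) (θ : L) : L :=
  (Quotient.mk (MulAction.orbitRel (Subgroup.zpowers (X.F v)) L) θ).out

open scoped Classical in
/-- representatives of the orbits of the Frobenius element on the roots -/
def R (v : Pr k) : Finset L := X.Ω.image (X.rep v)

open scoped Classical in
/-- the roots of `f` fixed by the Frobenius element (the roots of `f` modulo `v`) -/
def Fx (v : Pr k) : Finset L := X.Ω.filter fun θ => X.F v θ = θ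

/-- the length of the orbit -/
def len (v : Pr k) (θ : L) : ℕ := Function.minimalPeriod (X.F v) θ

open scoped Classical in
/-- Euler's criterion in the field with `(nm v) ^ n` elements -/
def ch (v : Pr k) (n : ℕ) (z : L) : ℤˣ :=
  if (X.P v).valuation L (z ^ ((nm v ^ n - 1) / 2) - 1) < 1 then 1 else -1

open scoped Classical in
/-- the classes of roots -/
def cls (X : Ctx k L f) : Finset k[X] := X.Ω.image (minpoly k)

/-- the number of classes -/
def m : ℕ := X.cls.card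

open scoped Classical in
/-- the number of the class of a root -/
def cmp (X : Ctx k L f) (hm : 0 < X.m) (θ : L) : Fin X.m :=
  if h : minpoly k θ ∈ X.cls then X.cls.equivFin ⟨minpoly k θ, h⟩ else ⟨0, hm⟩

open scoped Classical in
/-- the excluded primes -/
def Ex (X : Ctx k L f) (hfin : {v : Pr k | ¬ Gd X.M v}.Finite) : Finset (Pr k) := hfin.toFinset

open scoped Classical in
/-- The counting problem. -/
def cd (X : Ctx k L f) (hm : 0 < X.m) (hfin : {v : Pr k | ¬ Gd X.M v}.Finite)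
    (g : Pr k → L × ℤˣ → L → ℤˣ) : Pool.Agent.Helper99.HG.CD X.m ℤˣ where
  P := Pr k
  nm := nm
  Ex := hfin.toFinset
  O := L × ℤˣ
  ι := L
  V := fun v => X.Fx v ×ˢ Finset.univ
  cmp := fun o => X.cmp hm o.1
  I := fun v o j => ((X.R v).filter fun ρ => X.cmp hm ρ = j).erase o.1
  χ := fun v ρ q o => X.ch v (X.len v ρ) (aeval ρ (X.B q o.1))
  g := g

end Ctx

/-- BLOCK G1: sections give bad sets of primes, for one of finitely many prescriptions. -/
def StmtG1 : Prop :=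
  StmtSel → ∀ (k L : Type) [Field k] [NumberField k] [Field L] [NumberField L] [Algebra k L]
    [IsGalois k L] (f : k[X]) (X : Ctx k L f), Even f.natDegree → 4 ≤ f.natDegree →
    ∀ MA : ℕ, (∀ c : k, c ≠ 0 → HasSection f c →
      ∃ (α : HeightOneSpectrum (𝓞 k) → 𝓞 k) (D : L → L → L), Bad f MA c α D) → MA ∣ X.M →
    ∀ (hm : 0 < X.m) (hfin : {v : Pr k | ¬ Gd X.M v}.Finite),
    ∃ (H : Type) (_ : Finite H) (g : H → Pr k → L × ℤˣ → L → ℤˣ), ∀ c : k, c ≠ 0 → HasSection f c →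
      ∀ S : Finset (Pr k), (∀ v, v ∈ S ↔ Gd X.M v ∧ IsOdd v c) →
      ∃ h : H, Pool.Agent.Helper99.HG.Bad (X.cd hm hfin (g h)) S

/-- BLOCK G2: Brun-Titchmarsh for the counting problem. -/
def StmtG2 : Prop :=
  StmtBTL → StmtMert → ∀ (k L : Type) [Field k] [NumberField k] [Field L] [NumberField L]
    [Algebra k L] [IsGalois k L] (f : k[X]) (X : Ctx k L f)
    (hm : 0 < X.m) (hfin : {v : Pr k | ¬ Gd X.M v}.Finite) (g : Pr k → L × ℤˣ → L → ℤˣ),
    Pool.Agent.Helper99.HG.BT (X.cd hm hfin g)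

/-- BLOCK G3: the weights. -/
def StmtG3 : Prop :=
  StmtMert → StmtSplit → StmtDer → ∀ (k L : Type) [Field k] [NumberField k] [Field L]
    [NumberField L] [Algebra k L] [IsGalois k L] (f : k[X]) (X : Ctx k L f),
    (∀ a : k, eval a f ≠ 0) → ∀
    (hm : 0 < X.m) (hfin : {v : Pr k | ¬ Gd X.M v}.Finite) (g : Pr k → L × ℤˣ → L → ℤˣ),
    Pool.Agent.Helper99.HG.Sys (Pr k) nm ∧
    (∃ K : ℕ, ∀ p, ((X.cd hm hfin g).V p).card ≤ K) ∧
    ∀ J : Finset (Fin X.m), Pool.Agent.Helper99.HG.TA (X.cd hm hfin g) J ∨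
      Pool.Agent.Helper99.HG.TB (X.cd hm hfin g) J

/-- BLOCK G4: the choices exist. -/
def StmtG4 : Prop :=
  StmtThue → ∀ (k L : Type) [Field k] [NumberField k] [Field L] [NumberField L] [Algebra k L]
    [IsGalois k L] (f : k[X]), f.Separable → (f.map (algebraMap k L)).Splits →
    4 ≤ f.natDegree → ∀ MA : ℕ, MA ≠ 0 →
    ∃ X : Ctx k L f, MA ∣ X.M ∧ 0 < X.m ∧ {v : Pr k | ¬ Gd X.M v}.Finite

/-- BLOCK G5: the final theorem. -/
def StmtG5 : Prop :=
  StmtA → StmtSel → Pool.Agent.Helper99.HG.StmtCount → StmtG1 → StmtG2 → StmtG3 → StmtG4 →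
    StmtThue → StmtBTL → StmtMert → StmtSplit → StmtDer → StmtFinal

end

end Pool.Agent.HG
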