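import Pool.Agent.Helper13.HG.G1
import Pool.Agent.Helper97.HG.Final
import Pool.Agent.Helper99.HG.G5
import Pool.Agent.Helper99.HG.Count
import Pool.Agent.Helper5.HG.G3
import Pool.Agent.Helper45.HG.A
import Pool.Agent.Helper45.HG.Ratio
import Pool.Agent.Helper21.HG.Split
import Pool.Agent.Helper21.HG.Mert
import Pool.Agent.Helper88.HG.G4
import Pool.Agent.Helper22.HG.Der
import Pool.Agent.Helper45.HG.Sel

/-!
# Project HG: the assembly
-/

set_option autoImplicit false

namespace Pool.Agent.HG

/-- The final theorem from the open blocks. -/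
theorem final_of (hsel : StmtSel) : StmtFinal :=
  g5 stmtA hsel Pool.Agent.Helper99.HG.count g1 g2 g3 Pool.Agent.Helper88.HG.g4
    Pool.Agent.Helper88.HG.thue (btl Pool.Agent.Helper21.HG.mert) Pool.Agent.Helper21.HG.mert
    Pool.Agent.Helper21.HG.split Pool.Agent.Helper22.HG.der

/-- **The final theorem.** -/
theorem final : StmtFinal := final_of sel

/-- The final theorem, with the ratio. -/
theorem ratio : StmtRatio := ratio_of_final sel final

end Pool.Agent.HG
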