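import Pool.Agent.Helper13.HG.Ctx

/-!
# Euler's criterion at the chosen primes
-/

set_option autoImplicit false

namespace Pool.Agent.HG

open Polynomial NumberField IsDedekindDomain
open scoped Pointwise IntermediateField

section cong

variable {L : Type} [Field L] [NumberField L] (P : Pr L)

/-- congruence modulo the maximal ideal -/
def Cg (x y : L) : Prop := P.valuation L x ≤ 1 ∧ P.valuation L y ≤ 1 ∧ P.valuation L (x - y) < 1

variable {P}

theorem Cg.refl {x : L} (h : P.valuation L x ≤ 1) : Cg P x x := ⟨h, h, by simp⟩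

theorem Cg.symm {x y : L} (h : Cg P x y) : Cg P y x :=
  ⟨h.2.1, h.1, by rw [← Valuation.map_neg, neg_sub]; exact h.2.2⟩

theorem Cg.trans {x y z : L} (h : Cg P x y) (h' : Cg P y z) : Cg P x z :=
  ⟨h.1, h'.2.1, by
    have : x - z = (x - y) + (y - z) := by ring
    rw [this]; exact Valuation.map_add_lt _ h.2.2 h'.2.2⟩

theorem Cg.mul {x y x' y' : L} (h : Cg P x y) (h' : Cg P x' y') : Cg P (x * x') (y * y') := by
  refine ⟨by rw [map_mul]; exact mul_le_one' h.1 h'.1,
    by rw [map_mul]; exact mul_le_one' h.2.1 h'.2.1, ?_⟩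
  have : x * x' - y * y' = x * (x' - y') + (x - y) * y' := by ring
  rw [this]
  refine Valuation.map_add_lt _ ?_ ?_
  · rw [map_mul]; exact (mul_le_of_le_one_left' h.1).trans_lt h'.2.2
  · rw [map_mul]; exact (mul_le_of_le_one_right' h'.2.1).trans_lt h.2.2

theorem Cg.sub {x y x' y' : L} (h : Cg P x y) (h' : Cg P x' y') : Cg P (x - x') (y - y') := by
  refine ⟨(Valuation.map_sub _ _ _).trans (max_le h.1 h'.1),
    (Valuation.map_sub _ _ _).trans (max_le h.2.1 h'.2.1), ?_⟩
  have : x - x' - (y - y') = (x - y) - (x' - y') := by ring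
  rw [this]
  exact Valuation.map_sub_lt _ h.2.2 h'.2.2

theorem Cg.pow {x y : L} (h : Cg P x y) (n : ℕ) : Cg P (x ^ n) (y ^ n) := by
  induction n with
  | zero => simpa using Cg.refl (P := P) (x := (1 : L)) (by simp)
  | succ n ih => rw [pow_succ, pow_succ]; exact ih.mul h

theorem Cg.unit {x y : L} (h : Cg P x y) (hy : P.valuation L y = 1) : P.valuation L x = 1 := by
  have h1 : x = (x - y) + y := by ring
  have h2 : P.valuation L (x - y) < P.valuation L y := by rw [hy]; exact h.2.2
  rw [h1, Valuation.map_add_eq_of_lt_right _ h2, hy]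

theorem Cg.mul_left_cancel {x y z : L} (hz : P.valuation L z = 1) (hx : P.valuation L x ≤ 1)
    (hy : P.valuation L y ≤ 1) (h : Cg P (z * x) (z * y)) : Cg P x y := by
  refine ⟨hx, hy, ?_⟩
  have h1 := h.2.2
  rwa [← mul_sub, map_mul, hz, one_mul] at h1

end cong

section un

variable {L : Type} [Field L] [NumberField L] (P : Pr L)

/-- `z` is a unit whose class lies in the field with `q` elements -/
def Un (q : ℕ) (z : L) : Prop := P.valuation L z = 1 ∧ Cg P (z ^ q) z

variable {P} {q : ℕ}

theorem Un.mul {z z' : L} (h : Un P q z) (h' : Un P q z') : Un P q (z * z') :=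
  ⟨by rw [map_mul, h.1, h'.1, one_mul], by rw [mul_pow]; exact h.2.mul h'.2⟩

theorem Un.one : Un P q (1 : L) := ⟨map_one _, by rw [one_pow]; exact Cg.refl (map_one _).le⟩

theorem Un.prod {ι : Type} (s : Finset ι) (z : ι → L) (h : ∀ i ∈ s, Un P q (z i)) :
    Un P q (∏ i ∈ s, z i) := by
  classical
  induction s using Finset.induction_on with
  | empty => rw [Finset.prod_empty]; exact Un.one
  | insert i s hi ih =>
    rw [Finset.prod_insert hi]
    exact (h i (Finset.mem_insert_self _ _)).mul (ih fun j hj => h j (Finset.mem_insert_of_mem hj))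

theorem Un.congr {z z' : L} (h : Un P q z) (hc : Cg P z' z) : Un P q z' :=
  ⟨hc.unit h.1, ((hc.pow q).trans h.2).trans hc.symm⟩

theorem Un.inv {z : L} (h : Un P q z) : Un P q z⁻¹ := by
  have h0 : z ≠ 0 := by
    rintro rfl
    have := h.1
    rw [map_zero] at this
    exact zero_ne_one this
  have h1 : P.valuation L z⁻¹ = 1 := by rw [map_inv₀, h.1, inv_one]
  refine ⟨h1, ?_⟩
  refine Cg.mul_left_cancel (z := z ^ q * z) (by rw [map_mul, map_pow, h.1, one_pow, one_mul])
    (by rw [map_pow, h1, one_pow]) h1.le ?_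
  have e1 : z ^ q * z * z⁻¹ ^ q = z := by
    rw [inv_pow, mul_comm (z ^ q) z, mul_assoc, mul_inv_cancel₀ (pow_ne_zero _ h0), mul_one]
  have e2 : z ^ q * z * z⁻¹ = z ^ q := by
    rw [mul_assoc, mul_inv_cancel₀ h0, mul_one]
  rw [e1, e2]
  exact h.2.symm

/-- `z ^ (q - 1)` is congruent to `1` -/
theorem Un.pow_sub_one {z : L} (h : Un P q z) (hq : 1 ≤ q) : Cg P (z ^ (q - 1)) 1 := by
  refine Cg.mul_left_cancel h.1 (by rw [map_pow, h.1, one_pow]) (map_one _).le ?_
  rw [← pow_succ', Nat.sub_add_cancel hq, mul_one]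
  exact h.2

variable (h2 : P.valuation L (2 : L) = 1)

theorem sq_cg {y : L} (h : Cg P (y ^ 2) 1) : Cg P y 1 ∨ Cg P y (-1) := by
  have hy : P.valuation L y = 1 := by
    have := h.unit (map_one _)
    rw [map_pow] at this
    exact (pow_eq_one_iff_of_nonneg zero_le two_ne_zero).1 this
  have h1 : P.valuation L ((y - 1) * (y - -1)) < 1 := by
    have e : (y - 1) * (y - -1) = y ^ 2 - 1 := by ring
    rw [e]
    exact h.2.2
  rw [map_mul] at h1
  by_cases h3 : P.valuation L (y - 1) < 1
  · exact Or.inl ⟨hy.le, (map_one _).le, h3⟩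
  · right
    refine ⟨hy.le, by rw [Valuation.map_neg, map_one], ?_⟩
    by_contra h4
    have h5 : P.valuation L (y - 1) ≤ 1 := (Valuation.map_sub _ _ _).trans (max_le hy.le (map_one _).le)
    have h6 : P.valuation L (y - -1) ≤ 1 := (Valuation.map_sub _ _ _).trans
      (max_le hy.le (by rw [Valuation.map_neg, map_one]))
    rw [le_antisymm h5 (not_lt.1 h3), le_antisymm h6 (not_lt.1 h4), one_mul] at h1
    exact lt_irrefl _ h1

include h2 in
theorem not_cg_neg {y : L} (h : Cg P y 1) : ¬ Cg P y (-1) := by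
  intro h'
  have h3 := (h.symm.trans h').2.2
  have e : (1 : L) - -1 = 2 := by norm_num
  rw [e, h2] at h3
  exact lt_irrefl _ h3

end un

section eul

variable {L : Type} [Field L] [NumberField L] (P : Pr L)

open scoped Classical in
/-- Euler's criterion in the field with `q` elements -/
noncomputable def eul (q : ℕ) (z : L) : ℤˣ := if P.valuation L (z ^ ((q - 1) / 2) - 1) < 1 then 1 else -1

variable {P} (h2 : P.valuation L (2 : L) = 1) {q : ℕ} (hq : Odd q)

include h2 hq

omit h2 in
theorem eul_spec {z : L} (h : Un P q z) :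
    Cg P (z ^ ((q - 1) / 2)) (((eul P q z : ℤˣ) : ℤ) : L) := by
  obtain ⟨r, rfl⟩ := hq
  have e1 : (2 * r + 1 - 1) / 2 = r := by omega
  have hz1 : P.valuation L (z ^ r) = 1 := by rw [map_pow, h.1, one_pow]
  have h3 := h.pow_sub_one (by omega)
  have e2 : z ^ (2 * r + 1 - 1) = (z ^ r) ^ 2 := by
    rw [← pow_mul]
    congr 1
    omega
  rw [e2] at h3
  unfold eul
  rw [e1]
  split_ifs with h4
  · have h5 : Cg P (z ^ r) 1 := ⟨hz1.le, (map_one _).le, h4⟩
    rw [show ((((1 : ℤˣ) : ℤ)) : L) = 1 by simp]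
    exact h5
  · rcases sq_cg h3 with h5 | h5
    · exact absurd h5.2.2 h4
    · simpa using h5

omit hq in
theorem eul_eq {z : L} {e : ℤˣ} (h : Cg P (z ^ ((q - 1) / 2)) (((e : ℤˣ) : ℤ) : L)) :
    eul P q z = e := by
  unfold eul
  rcases Int.units_eq_one_or e with rfl | rfl
  · rw [if_pos]
    simpa using h.2.2
  · rw [if_neg]
    intro h3
    have h4 : Cg P (z ^ ((q - 1) / 2)) (-1) := by simpa using h
    exact not_cg_neg h2 ⟨h.1, (map_one _).le, h3⟩ h4

theorem eul_mul {z z' : L} (h : Un P q z) (h' : Un P q z') :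
    eul P q (z * z') = eul P q z * eul P q z' := by
  refine eul_eq h2 ?_
  rw [mul_pow, Units.val_mul, Int.cast_mul]
  exact (eul_spec hq h).mul (eul_spec hq h')

omit hq in
theorem eul_one : eul P q (1 : L) = 1 := by
  refine eul_eq h2 ?_
  rw [one_pow]
  simpa using Cg.refl (P := P) (x := (1 : L)) (map_one _).le

theorem eul_prod {ι : Type} (s : Finset ι) (z : ι → L) (h : ∀ i ∈ s, Un P q (z i)) :
    eul P q (∏ i ∈ s, z i) = ∏ i ∈ s, eul P q (z i) := by
  classical
  induction s using Finset.induction_on with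
  | empty => rw [Finset.prod_empty, Finset.prod_empty, eul_one h2]
  | insert i s hi ih =>
    have h3 : ∀ j ∈ s, Un P q (z j) := fun j hj => h j (Finset.mem_insert_of_mem hj)
    rw [Finset.prod_insert hi, Finset.prod_insert hi,
      eul_mul h2 hq (h i (Finset.mem_insert_self _ _)) (Un.prod s z h3), ih h3]

theorem eul_sq {z : L} (h : Un P q z) : eul P q (z ^ 2) = 1 := by
  rw [pow_two, eul_mul h2 hq h h]
  exact Int.units_mul_self _

theorem eul_congr {z z' : L} (h : Un P q z) (hc : Cg P z' z) : eul P q z' = eul P q z :=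
  eul_eq h2 ((hc.pow _).trans (eul_spec hq h))

end eul

section lift

variable {L : Type} [Field L] [NumberField L] {P : Pr L}

theorem Un.lift {q : ℕ} {z : L} (h : Un P q z) (m : ℕ) : Un P (q ^ m) z := by
  refine ⟨h.1, ?_⟩
  induction m with
  | zero => rw [pow_zero, pow_one]; exact Cg.refl h.1.le
  | succ m ih =>
    rw [pow_succ, pow_mul]
    exact (ih.pow q).trans h.2

/-- The Euler criterion in an extension of degree `m`. -/
theorem eul_lift (h2 : P.valuation L (2 : L) = 1) {q : ℕ} (hq : Odd q) {z : L} (h : Un P q z)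
    (m : ℕ) : eul P (q ^ m) z = eul P q z ^ m := by
  have hs := eul_spec hq h
  refine eul_eq h2 ?_
  -- `(q ^ m - 1) / 2 = ((q - 1) / 2) * (1 + q + ...)`
  induction m with
  | zero =>
    simp only [pow_zero, Nat.sub_self, Nat.zero_div]
    simpa using Cg.refl (P := P) (x := (1 : L)) (map_one _).le
  | succ m ih =>
    have e : (q ^ (m + 1) - 1) / 2 = ((q ^ m - 1) / 2) * q + (q - 1) / 2 := by
      obtain ⟨r, hr⟩ := hq.pow (n := m)
      obtain ⟨t, rfl⟩ := hq
      rw [pow_succ, hr]
      have e1 : (2 * r + 1) * (2 * t + 1) - 1 = 2 * (r * (2 * t + 1) + t) := by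
        have : (2 * r + 1) * (2 * t + 1) = 2 * (r * (2 * t + 1) + t) + 1 := by ring
        omega
      rw [e1]
      have e2 : (2 * r + 1 - 1) / 2 = r := by omega
      have e3 : (2 * t + 1 - 1) / 2 = t := by omega
      rw [e2, e3, Nat.mul_div_cancel_left _ two_pos]
    rw [e, pow_add, pow_mul, pow_succ (eul P q z), Units.val_mul, Int.cast_mul]
    refine Cg.mul ?_ hs
    refine (ih.pow q).trans ?_
    have h3 : ((((eul P q z ^ m : ℤˣ) : ℤ) : L)) ^ q = (((eul P q z ^ m : ℤˣ) : ℤ) : L) := by
      rcases Int.units_eq_one_or (eul P q z ^ m) with h4 | h4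
      · rw [h4]; simp
      · rw [h4]
        push_cast
        exact hq.neg_one_pow
    rw [h3]
    refine Cg.refl ?_
    rcases Int.units_eq_one_or (eul P q z ^ m) with h4 | h4
    · rw [h4]; simp
    · rw [h4]
      push_cast
      rw [Valuation.map_neg, map_one]

end lift

end Pool.Agent.HG
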