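import Pool.Agent.Helper45.HG.DefsA

/-!
# Almost all quadratic twists of a hyperelliptic curve over a number field (project HG)

The statements of the blocks SEL, THUE, BTL, MERT, SPLIT, DER, FINAL.

Goal: `k` a number field, `f ∈ k[X]` separable of even degree `≥ 4` without root in `k`.  For almost
all `c ∈ k*/k*²`, ordered by the norm of the product of the primes `v` with `v(c)` odd, no curve
which maps onto `y² = c f(x)` has a Galois section.
-/

set_option autoImplicit false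

namespace Pool.Agent.HG

open Polynomial Filter Topology NumberField IsDedekindDomain
open scoped IntermediateField

noncomputable section

/-- the primes of `k` -/
abbrev Pr (k : Type) [Field k] [NumberField k] : Type := HeightOneSpectrum (𝓞 k)

/-- the norm of a prime -/
def nm {k : Type} [Field k] [NumberField k] (v : Pr k) : ℕ := Ideal.absNorm v.asIdeal

/-- BLOCK SEL: the group of the elements of `E` modulo squares which have even valuation at all
primes not above `M` is finite. -/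
def StmtSel : Prop :=
  ∀ (k L : Type) [Field k] [NumberField k] [Field L] [NumberField L] [Algebra k L]
    (E : IntermediateField k L) (M : ℕ), M ≠ 0 →
    ∃ F : Finset L, (∀ e ∈ F, e ∈ E ∧ e ≠ 0) ∧ ∀ z ∈ E, z ≠ 0 →
      (∀ (p : ℕ) (P : Pr L), p.Prime → ¬ p ∣ M → (p : 𝓞 L) ∈ P.asIdeal → Ev P p z) →
      ∃ e ∈ F, ∃ d ∈ E, z = e * d ^ 2

/-- BLOCK THUE: for every prime `v` of `k` and every root `o` of `f` which is congruent to an
element of `k` modulo the prime `P` above `v` there is a small element, a polynomial `B` in `o`, of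
the prime of `k(o)` below `P`. -/
def StmtThue : Prop :=
  ∀ (k : Type) [Field k] [NumberField k] (f : k[X]), f.Separable →
    ∀ (L : Type) [Field L] [NumberField L] [Algebra k L] [IsGalois k L],
    (f.map (algebraMap k L)).Splits →
    ∃ (M : ℕ) (K : ℝ), M ≠ 0 ∧ 1 ≤ K ∧ ∀ (p : ℕ) (v : Pr k) (P : Pr L), Over M p v P →
      ∀ o ∈ f.rootSet L, P.valuation L (o ^ nm v - o) < 1 →
      ∃ (B : k[X]) (a : ℕ), a ≠ 0 ∧ (a : ℝ) ≤ K ∧
        -- integral, small, and of norm `a * nm v` from `k(θ)` to `ℚ`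
        (∀ θ ∈ f.rootSet L, minpoly k θ = minpoly k o →
          IsIntegral ℤ (aeval θ B) ∧ aeval θ B ≠ 0 ∧
          (∀ φ : L →+* ℂ, ‖φ (aeval θ B)‖ ≤
            K * (nm v : ℝ) ^ ((1 : ℝ) / (Module.finrank ℚ k * (minpoly k o).natDegree : ℕ))) ∧
          |Algebra.norm ℚ (aeval (IntermediateField.AdjoinSimple.gen k θ) B)| = a * nm v) ∧
        -- unit at the primes above all other primes of `k`
        (∀ (p' : ℕ) (v' : Pr k) (P' : Pr L), Over M p' v' P' → v' ≠ v →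
          ∀ θ ∈ f.rootSet L, minpoly k θ = minpoly k o → P'.valuation L (aeval θ B) = 1) ∧
        -- the primes above `v`
        ∀ a' : 𝓞 k, P.valuation L (algebraMap k L a' - o) < 1 →
          ∀ P' : Pr L, Over M p v P' → ∀ θ ∈ f.rootSet L, minpoly k θ = minpoly k o →
            (P'.valuation L (algebraMap k L a' - θ) = 1 → P'.valuation L (aeval θ B) = 1) ∧
            (P'.valuation L (algebraMap k L a' - θ) < 1 →
              P'.valuation L (aeval θ B) = P'.valuation L (p : L))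

/-- BLOCK BTL: Brun-Titchmarsh in a number field, with prescribed quadratic characters. -/
def StmtBTL : Prop :=
  ∀ (L : Type) [Field L] [NumberField L] (K : ℝ), 1 ≤ K → ∀ ε : ℝ, 0 < ε →
    ∃ (C : ℝ) (A h₀ : ℕ), 0 < C ∧ ∀ h : ℕ, h₀ ≤ h → ∀ MM : Finset (Pr L),
      (∀ q ∈ MM, Odd (nm q)) → (∏ q ∈ MM, nm q) ^ A ≤ h → ∀ η : Pr L → Prop,
      ∀ T : Finset (𝓞 L),
        (∀ x ∈ T, (∀ φ : L →+* ℂ, ‖φ x‖ ≤ K * (h : ℝ) ^ ((1 : ℝ) / Module.finrank ℚ L)) ∧
          (∃ a ℓ : ℕ, ℓ.Prime ∧ h ≤ ℓ ^ 2 ∧ a ≠ 0 ∧ (a : ℝ) ≤ K ∧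
            Ideal.absNorm (Ideal.span {x}) = a * ℓ) ∧
          ∀ q ∈ MM, x ∉ q.asIdeal ∧ (IsSquare (Ideal.Quotient.mk q.asIdeal x) ↔ η q)) →
        (T.card : ℝ) ≤ C * (1 / 2) ^ MM.card * (h / Real.log h ^ (1 - ε))

/-! ## Densities -/

/-- BLOCK MERT: Chebyshev and Mertens. -/
def StmtMert : Prop :=
  ∀ (k : Type) [Field k] [NumberField k] (B : ℕ → Finset (Pr k)), (∀ x v, v ∈ B x ↔ nm v ≤ x) →
    (∃ C : ℝ, ∀ x : ℕ, ∑ v ∈ B x, Real.log (nm v) ≤ C * x) ∧
    ∃ C : ℝ, ∀ x : ℕ, 2 ≤ x → |∑ v ∈ B x, (1 : ℝ) / nm v - Real.log (Real.log x)| ≤ C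

open scoped Classical in
/-- BLOCK SPLIT: the primes which split completely. -/
def StmtSplit : Prop :=
  ∀ (k L : Type) [Field k] [NumberField k] [Field L] [NumberField L] [Algebra k L] [IsGalois k L]
    (B : ℕ → Finset (Pr k)), (∀ x v, v ∈ B x ↔ nm v ≤ x) →
    ∃ (δ C : ℝ) (Q : Set (Pr k)), 0 < δ ∧
      (∀ v ∈ Q, ∀ P : Pr L, P.asIdeal.comap (algebraMap (𝓞 k) (𝓞 L)) = v.asIdeal →
        ∀ z : 𝓞 L, z ^ nm v - z ∈ P.asIdeal) ∧
      ∀ x : ℕ, 2 ≤ x →
        |∑ v ∈ (B x).filter (· ∈ Q), (1 : ℝ) / nm v - δ * Real.log (Real.log x)| ≤ C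

open scoped Classical in
/-- BLOCK DER: the primes `v` of `k` modulo which no element of the Galois stable set `Ω`, of at most
`4` elements, is congruent to an element of `k`. -/
def StmtDer : Prop :=
  ∀ (k L : Type) [Field k] [NumberField k] [Field L] [NumberField L] [Algebra k L] [IsGalois k L]
    (Ω : Finset L), (∀ σ : L ≃ₐ[k] L, ∀ θ ∈ Ω, σ θ ∈ Ω) → (∀ θ ∈ Ω, ∀ a : k, θ ≠ algebraMap k L a) →
    Ω.card ≤ 4 →
    ∀ B : ℕ → Finset (Pr k), (∀ x v, v ∈ B x ↔ nm v ≤ x) →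
    ∃ (δ C : ℝ) (Q : Set (Pr k)), 0 < δ ∧
      (∀ v ∈ Q, ∀ P : Pr L, P.asIdeal.comap (algebraMap (𝓞 k) (𝓞 L)) = v.asIdeal →
        ∀ θ ∈ Ω, ¬ P.valuation L (θ ^ nm v - θ) < 1) ∧
      ∀ x : ℕ, 2 ≤ x →
        |∑ v ∈ (B x).filter (· ∈ Q), (1 : ℝ) / nm v - δ * Real.log (Real.log x)| ≤ C

/-! ## The final theorem -/

/-- `v(c)` is odd -/
def IsOdd {k : Type} [Field k] [NumberField k] (v : Pr k) (c : k) : Prop :=
  ∀ d : k, v.valuation k c ≠ v.valuation k d ^ 2

open scoped Classical in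
/-- The norm of the product of the primes `v` with `v(c)` odd. -/
def cond {k : Type} [Field k] [NumberField k] (c : k) : ℕ :=
  ∏ᶠ v : Pr k, if IsOdd v c then nm v else 1

/-- The final theorem. -/
def StmtFinal : Prop :=
  ∀ (k : Type) [Field k] [NumberField k] (f : k[X]), f.Separable → Even f.natDegree →
    4 ≤ f.natDegree → (∀ a : k, eval a f ≠ 0) →
    ∀ ε : ℝ, 0 < ε → ∀ᶠ X : ℕ in atTop, ∀ T : Finset k,
      -- different classes modulo squares
      (∀ c ∈ T, ∀ c' ∈ T, (∃ d : k, c = c' * d ^ 2) → c = c') →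
      (∀ c ∈ T, c ≠ 0 ∧ cond c ≤ X ∧ HasSection f c) → (T.card : ℝ) ≤ ε * X

end

end Pool.Agent.HG
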