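import Pool.Agent.Helper13.HG.G1a

/-!
# Block G1: sections give bad sets of primes
-/

set_option autoImplicit false

namespace Pool.Agent.HG

open Polynomial NumberField IsDedekindDomain
open scoped Pointwise IntermediateField

namespace Ctx

variable {k L : Type} [Field k] [NumberField k] [Field L] [NumberField L] [Algebra k L]
  [IsGalois k L] {f : k[X]} (X : Ctx k L f)

open scoped Classical in
/-- the class of `e` times a square which is a unit -/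
noncomputable def chE (v : Pr k) (n : ℕ) (e : L) : ℤˣ :=
  if ∃ w : L, w ≠ 0 ∧ (X.F v ^ n) w = w ∧ (X.P v).valuation L (e * w ^ 2) = 1 ∧
    X.ch v n (e * w ^ 2) = 1 then 1 else -1

theorem chE_eq {v : Pr k} {n : ℕ} (h2 : (X.P v).valuation L (2 : L) = 1) (hq : Odd (nm v)) {e w : L}
    (he : (X.F v ^ n) e = e) (hw : w ≠ 0) (hF : (X.F v ^ n) w = w)
    (hv : (X.P v).valuation L (e * w ^ 2) = 1) : X.chE v n e = X.ch v n (e * w ^ 2) := by
  have hqn : Odd (nm v ^ n) := hq.pow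
  unfold chE
  split_ifs with h
  · obtain ⟨w', hw', hF', hv', h1⟩ := h
    have hu0 : (X.P v).valuation L (w / w') = 1 := by
      have h3 : e * w ^ 2 = (e * w' ^ 2) * (w / w') ^ 2 := by
        field_simp
      rw [h3, map_mul, hv', one_mul, map_pow] at hv
      exact (pow_eq_one_iff_of_nonneg zero_le two_ne_zero).1 hv
    have hu : Un (X.P v) (nm v ^ n) (w / w') :=
      X.un_of_fixed hu0 (by rw [map_div₀, hF, hF'])
    have he' : Un (X.P v) (nm v ^ n) (e * w' ^ 2) :=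
      X.un_of_fixed hv' (by rw [map_mul, map_pow, he, hF'])
    have h3 : e * w ^ 2 = (e * w' ^ 2) * ((w / w') * (w / w')) := by
      field_simp
    rw [X.ch_eq] at h1
    rw [X.ch_eq, h3, eul_mul h2 hqn he' (hu.mul hu), h1, eul_mul h2 hqn hu hu, one_mul]
    exact (Int.units_mul_self _).symm
  · push Not at h
    have h1 := h w hw hF hv
    rcases Int.units_eq_one_or (X.ch v n (e * w ^ 2)) with h3 | h3
    · exact absurd h3 h1
    · exact h3.symm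

theorem cmp_eq (hm : 0 < X.m) {θ θ' : L} (hθ : θ ∈ X.Ω) (hθ' : θ' ∈ X.Ω) :
    X.cmp hm θ = X.cmp hm θ' ↔ minpoly k θ = minpoly k θ' := by
  classical
  have h1 : ∀ {θ : L}, θ ∈ X.Ω → minpoly k θ ∈ X.cls := fun hθ => Finset.mem_image_of_mem _ hθ
  have h3 : ∀ {θ : L} (hθ : θ ∈ X.Ω), X.cmp hm θ = X.cls.equivFin ⟨minpoly k θ, h1 hθ⟩ :=
    fun hθ => dif_pos (h1 hθ)
  constructor
  · intro h
    rw [h3 hθ, h3 hθ'] at h
    exact congrArg Subtype.val (X.cls.equivFin.injective h)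
  · intro h
    rw [h3 hθ, h3 hθ']
    exact congrArg _ (Subtype.ext h)

end Ctx

theorem units_odd_pow (x : ℤˣ) {n : ℕ} (hn : Odd n) : x ^ n = x := by
  obtain ⟨s, rfl⟩ := hn
  rw [pow_add, pow_mul, pow_two, Int.units_mul_self, one_pow, one_mul, pow_one]

section rel

variable {k L : Type} [Field k] [NumberField k] [Field L] [NumberField L] [Algebra k L]
  [IsGalois k L] {f : k[X]} {X : Ctx k L f}
variable {c : k} {S : Finset (Pr k)} {D : L → L → L} {α : Pr k → 𝓞 k} {t : Pr k → L}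
  (h : DatS X c S D α t)

include h

theorem DatS.val_root_one {v : Pr k} (hv : v ∈ S) {ρ : L} (hρ : ρ ∈ X.Ω) (hne : ρ ≠ t v) :
    (X.P v).valuation L (algebraMap k L (α v) - ρ) = 1 ∧
      (X.P v).valuation L (t v - ρ) = 1 := by
  obtain ⟨p, hp, hpM, hpv⟩ := ((h.hS v).1 hv).1
  have h1 := X.sep p v (X.P v) (X.isOver hp hpM hpv) (t v) ((X.mem_Ω _).1 (h.t_mem v hv)) ρ
    ((X.mem_Ω _).1 hρ) hne.symm
  refine ⟨?_, h1⟩
  have h2 : algebraMap k L (α v) - ρ = (algebraMap k L (α v) - t v) + (t v - ρ) := by ring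
  rw [h2, Valuation.map_add_eq_of_lt_right _ (by rw [h1]; exact h.t_val v hv), h1]

/-- the Thue factors are units fixed by a power of the Frobenius element -/
theorem DatS.un_fac {v : Pr k} (hv : v ∈ S) {ρ : L} (hρ : ρ ∈ X.Ω) (hne : ρ ≠ t v) {n : ℕ}
    (hn : X.len v ρ ∣ n) {q : Pr k} (hq : q ∈ S) (hm : minpoly k (t q) = minpoly k ρ) :
    Un (X.P v) (nm v ^ n) (aeval ρ (X.B q (t q))) := by
  obtain ⟨p, hp, hpM, hpv⟩ := ((h.hS v).1 hv).1
  exact X.un_of_fixed (h.val_fac (X.isOver hp hpM hpv) hρ (h.val_root_one hv hρ hne).1 hq hm)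
    (aeval_fixed _ (X.fix_of_dvd hn))

open scoped Classical in
/-- the class of the product of the Thue numbers -/
theorem DatS.ch_Zp {v : Pr k} (hv : v ∈ S) {ρ : L} (hρ : ρ ∈ X.Ω) (hne : ρ ≠ t v) {n : ℕ}
    (hn : X.len v ρ ∣ n) :
    Un (X.P v) (nm v ^ n) (Zp X S t ρ) ∧ X.ch v n (Zp X S t ρ) =
      (∏ q ∈ S.filter (fun q => minpoly k (t q) = minpoly k ρ),
        X.ch v (X.len v ρ) (aeval ρ (X.B q (t q)))) ^ (n / X.len v ρ) := by
  obtain ⟨p, hp, hpM, hpv⟩ := ((h.hS v).1 hv).1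
  have h2 := X.two_unit hp hpM hpv
  have hq := X.nm_odd hp hpM hpv
  have h1 : ∀ q ∈ S.filter (fun q => minpoly k (t q) = minpoly k ρ),
      Un (X.P v) (nm v ^ n) (aeval ρ (X.B q (t q))) := fun q hq =>
    h.un_fac hv hρ hne hn (Finset.mem_filter.1 hq).1 (Finset.mem_filter.1 hq).2
  refine ⟨Un.prod _ _ h1, ?_⟩
  rw [X.ch_eq, Zp, eul_prod h2 hq.pow _ _ h1, ← Finset.prod_pow]
  refine Finset.prod_congr rfl fun q hqq => ?_
  obtain ⟨m, rfl⟩ := hn
  have h3 := h.un_fac hv hρ hne (dvd_refl (X.len v ρ)) (Finset.mem_filter.1 hqq).1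
    (Finset.mem_filter.1 hqq).2
  rw [Nat.mul_div_cancel_left _ (X.len_pos v ρ), pow_mul, eul_lift h2 hq.pow h3 m]
  rfl

open scoped Classical in
/-- **The relation.** -/
theorem DatS.rel (h4 : 4 ≤ f.natDegree) {v : Pr k} (hv : v ∈ S) {ρ : L}
    (hρ : ρ ∈ (X.R v).erase (t v)) (hst : ρ ≠ X.st v (t v)) {e d : L}
    (he : e ∈ k⟮ρ, X.st v (t v)⟯) (hd : d ∈ k⟮ρ, X.st v (t v)⟯)
    (hz : D ρ (X.st v (t v)) * Zp X S t ρ * Zp X S t (X.st v (t v)) = e * d ^ 2) :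
    ∏ q ∈ S.filter (fun q => minpoly k (t q) = minpoly k ρ),
        X.ch v (X.len v ρ) (aeval ρ (X.B q (t q))) =
      X.chE v (Nat.lcm (X.len v ρ) (X.len v (X.st v (t v)))) e *
      X.ch v (Nat.lcm (X.len v ρ) (X.len v (X.st v (t v)))) ((t v - ρ) * (t v - X.st v (t v))) *
      (∏ q ∈ S.filter (fun q => minpoly k (t q) = minpoly k (X.st v (t v))),
        X.ch v (X.len v (X.st v (t v))) (aeval (X.st v (t v)) (X.B q (t q)))) ^
        (Nat.lcm (X.len v ρ) (X.len v (X.st v (t v))) / X.len v (X.st v (t v))) := by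
  obtain ⟨p, hp, hpM, hpv⟩ := ((h.hS v).1 hv).1
  have ho := X.isOver hp hpM hpv
  have h2 := X.two_unit hp hpM hpv
  have hq := X.nm_odd hp hpM hpv
  have hfix := h.t_fix v hv
  have hodd := X.odd_quot h4 hfix hρ
  have hstm := X.st_mem h4 hfix
  obtain ⟨hρt, hρR⟩ := Finset.mem_erase.1 hρ
  obtain ⟨hst', hsR⟩ := Finset.mem_erase.1 hstm
  have hρΩ := X.R_subset v hρR
  have hsΩ := X.R_subset v hsR
  set s := X.st v (t v) with hs
  set n := Nat.lcm (X.len v ρ) (X.len v s) with hn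
  have hdρ : X.len v ρ ∣ n := Nat.dvd_lcm_left _ _
  have hds : X.len v s ∣ n := Nat.dvd_lcm_right _ _
  have hn0 : 0 < n := Nat.pos_of_ne_zero (Nat.lcm_ne_zero (X.len_pos v ρ).ne' (X.len_pos v s).ne')
  have hqn : Odd (nm v ^ n) := hq.pow
  have hFρ : (X.F v ^ n) ρ = ρ := X.fix_of_dvd hdρ
  have hFs : (X.F v ^ n) s = s := X.fix_of_dvd hds
  have hFt : (X.F v ^ n) (t v) = t v := by
    have := Ctx.zpow_fixed hfix (n : ℤ)
    rwa [zpow_natCast] at this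
  obtain ⟨hρ1, hρ2⟩ := h.val_root_one hv hρΩ hρt
  obtain ⟨hs1, hs2⟩ := h.val_root_one hv hsΩ hst'
  -- the factor of `D`
  have hod : Od v p c := (X.isOdd_iff hp hpM hpv h.hc).1 ((h.hS v).1 hv).2
  have hρr := (X.mem_Ω _).1 hρΩ
  have hsr := (X.mem_Ω _).1 hsΩ
  obtain ⟨a, ha⟩ := h.bad.even p v (X.P v) ho hod ρ hρr s hsr hst hρ1 hs1
  have hFp : ∀ a : ℤ, (X.F v ^ n) ((p : L) ^ a) = (p : L) ^ a := fun a => by
    rw [map_zpow₀, map_natCast]
  have hDF : (X.F v ^ n) (D ρ s * (p : L) ^ (2 * a)) = D ρ s * (p : L) ^ (2 * a) := by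
    rw [map_mul, h.D_fixed hρΩ hsΩ hst hFρ hFs, hFp]
  have hDU := X.un_of_fixed ha hDF
  have hw' : Un (X.P v) (nm v ^ n) ((t v - ρ) * (t v - s)) :=
    (X.un_of_fixed hρ2 (by rw [map_sub, hFt, hFρ])).mul
      (X.un_of_fixed hs2 (by rw [map_sub, hFt, hFs]))
  have hca : Cg (X.P v) (algebraMap k L (α v)) (t v) :=
    ⟨val_alg_int _ _, X.int p v _ ho _ ((X.mem_Ω _).1 (h.t_mem v hv)), h.t_val v hv⟩
  have hcw : Cg (X.P v) ((algebraMap k L (α v) - ρ) * (algebraMap k L (α v) - s))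
      ((t v - ρ) * (t v - s)) :=
    (hca.sub (Cg.refl (X.int p v _ ho _ hρr))).mul (hca.sub (Cg.refl (X.int p v _ ho _ hsr)))
  have hfr : ∀ {x : L}, x ∈ X.Ω → (X.F v ^ n) x = x →
      (X.P v).valuation L (x ^ nm v ^ n - x) < 1 := by
    intro x hx hF
    have h5 := X.frob_pow v n (X.int p v _ ho _ ((X.mem_Ω _).1 hx))
    rw [hF] at h5
    rw [← Valuation.map_neg, neg_sub]
    exact h5
  have htan := h.bad.tangent p v (X.P v) ho hod ρ hρr s hsr hst hρ1 hs1 (nm v) n rfl hn0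
    (hfr hρΩ hFρ) (hfr hsΩ hFs) a ha
  have hT : eul (X.P v) (nm v ^ n) (D ρ s * (p : L) ^ (2 * a) *
      ((algebraMap k L (α v) - ρ) * (algebraMap k L (α v) - s))) = 1 := by
    unfold eul
    rw [if_pos htan]
  rw [eul_mul h2 hqn hDU (hw'.congr hcw), eul_congr h2 hqn hw' hcw] at hT
  have hD : eul (X.P v) (nm v ^ n) (D ρ s * (p : L) ^ (2 * a)) =
      eul (X.P v) (nm v ^ n) ((t v - ρ) * (t v - s)) := by
    rw [mul_eq_one_iff_eq_inv] at hT
    rw [hT, Int.units_inv_eq_self]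
  -- the Thue factors
  obtain ⟨hU1, hC1⟩ := h.ch_Zp hv hρΩ hρt hdρ
  obtain ⟨hU2, hC2⟩ := h.ch_Zp hv hsΩ hst' hds
  rw [units_odd_pow _ hodd] at hC1
  -- the product
  have hp0 : (p : L) ≠ 0 := by exact_mod_cast hp.ne_zero
  have hz0 : D ρ s * Zp X S t ρ * Zp X S t s ≠ 0 := h.z_ne hρΩ hsΩ hst
  have hd0 : d ≠ 0 := by
    rintro rfl
    rw [zero_pow two_ne_zero, mul_zero] at hz
    exact hz0 hz
  have he1 : e * (d * (p : L) ^ a) ^ 2 = (D ρ s * (p : L) ^ (2 * a)) * Zp X S t ρ * Zp X S t s := by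
    have e1 : (p : L) ^ (2 * a) = ((p : L) ^ a) ^ 2 := by
      rw [← zpow_natCast, ← zpow_mul, mul_comm]
      rfl
    rw [e1, mul_pow, ← mul_assoc, ← hz]
    ring
  have hUz := (hDU.mul hU1).mul hU2
  have hE := X.chE_eq (v := v) (n := n) h2 hq (fixed_of_mem_adjoin he hFρ hFs)
    (mul_ne_zero hd0 (zpow_ne_zero a hp0)) (by
      rw [map_mul, fixed_of_mem_adjoin hd hFρ hFs, hFp]) (by rw [he1]; exact hUz.1)
  rw [he1, X.ch_eq, eul_mul h2 hqn (hDU.mul hU1) hU2, eul_mul h2 hqn hDU hU1, hD] at hE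
  rw [X.ch_eq] at hC1 hC2
  rw [← hC1, ← hC2, hE, X.ch_eq]
  generalize eul (X.P v) (nm v ^ n) ((t v - ρ) * (t v - s)) = x
  generalize eul (X.P v) (nm v ^ n) (Zp X S t ρ) = y
  generalize eul (X.P v) (nm v ^ n) (Zp X S t s) = w
  have hx := Int.units_mul_self x
  have hw := Int.units_mul_self w
  calc y = (x * x) * (w * w) * y := by rw [hx, hw, one_mul, one_mul]
    _ = x * y * w * x * w := by
      simp only [mul_comm, mul_left_comm]

end rel

section final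

variable {k L : Type} [Field k] [NumberField k] [Field L] [NumberField L] [Algebra k L]
  [IsGalois k L] {f : k[X]} (X : Ctx k L f)

open scoped Classical in
/-- the prescription which belongs to the classes `h` -/
noncomputable def gg (hm : 0 < X.m) (h : L → L → L) (v : Pr k) (o : L × ℤˣ) (ρ : L) : ℤˣ :=
  (if ρ = X.st v o.1 then o.2 else
    X.chE v (Nat.lcm (X.len v ρ) (X.len v (X.st v o.1))) (h ρ (X.st v o.1)) *
      X.ch v (Nat.lcm (X.len v ρ) (X.len v (X.st v o.1))) ((o.1 - ρ) * (o.1 - X.st v o.1)) *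
      o.2 ^ (Nat.lcm (X.len v ρ) (X.len v (X.st v o.1)) / X.len v (X.st v o.1))) *
  (if X.cmp hm o.1 = X.cmp hm ρ then X.ch v (X.len v ρ) (aeval ρ (X.B v o.1)) else 1)

open scoped Classical in
theorem bad_of (hm : 0 < X.m) (hfin : {v : Pr k | ¬ Gd X.M v}.Finite)
    (g : Pr k → L × ℤˣ → L → ℤˣ) (S : Finset (Pr k)) (hS : ∀ v ∈ S, Gd X.M v) (t : Pr k → L)
    (u : Pr k → ℤˣ) (ht : ∀ v ∈ S, t v ∈ X.Ω ∧ X.F v (t v) = t v)
    (h : ∀ v ∈ S, ∀ ρ ∈ X.R v, ρ ≠ t v →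
      ∏ q ∈ S.filter (fun q => q ≠ v ∧ X.cmp hm (t q) = X.cmp hm ρ),
        X.ch v (X.len v ρ) (aeval ρ (X.B q (t q))) = g v (t v, u v) ρ) :
    Pool.Agent.Helper99.HG.Bad (X.cd hm hfin g) S := by
  have hpf : Pool.Agent.Helper99.HG.pf (X.cd hm hfin g) S = S := by
    unfold Pool.Agent.Helper99.HG.pf
    refine Finset.filter_true_of_mem fun v hv => ?_
    intro h1
    exact (hfin.mem_toFinset.1 h1) (hS v hv)
  refine ⟨fun v => (t v, u v), ?_⟩
  rw [hpf]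
  intro (v : Pr k) hv
  refine ⟨?_, ?_⟩
  · refine Finset.mem_product.2 ⟨?_, Finset.mem_univ _⟩
    exact Finset.mem_filter.2 (ht v hv)
  intro j (ρ : L) hρ
  obtain ⟨hρt, hρ2⟩ := Finset.mem_erase.1 hρ
  have hρ3 : ρ ∈ X.R v ∧ X.cmp hm ρ = j := by
    exact (@Finset.mem_filter L (fun ρ => X.cmp hm ρ = j) (fun a => instDecidableEqFin _ _ _)
      (X.R v) ρ).1 hρ2
  obtain ⟨hρR, hρj⟩ := hρ3
  subst hρj
  refine Eq.trans ?_ (h v hv ρ hρR hρt)
  refine Finset.prod_congr ?_ fun _ _ => rfl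
  refine Finset.ext fun (q : Pr k) => ⟨fun h1 => ?_, fun h1 => ?_⟩
  · exact (@Finset.mem_filter _ _ _ _ _).2 ((@Finset.mem_filter _ _ _ _ _).1 h1)
  · exact (@Finset.mem_filter _ _ _ _ _).2 ((@Finset.mem_filter _ _ _ _ _).1 h1)

theorem g1 : StmtG1 := by
  intro hsel k L _ _ _ _ _ _ f X hev h4 MA hA hMA hm hfin
  classical
  -- the finite lists of classes
  choose Fs hFs1 hFs2 using fun θ θ' : L => hsel k L k⟮θ, θ'⟯ X.M X.hM
  set FF : Finset L := insert 1 ((X.Ω ×ˢ X.Ω).biUnion fun x => Fs x.1 x.2) with hFF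
  set hh : (X.Ω → X.Ω → FF) → L → L → L := fun h a b =>
    if hab : a ∈ X.Ω ∧ b ∈ X.Ω then (h ⟨a, hab.1⟩ ⟨b, hab.2⟩ : L) else 1 with hhh
  refine ⟨X.Ω → X.Ω → FF, inferInstance, fun h => gg X hm (hh h), ?_⟩
  intro c hc hsec S hS
  obtain ⟨α, D, hbad⟩ := hA c hc hsec
  have hbad := hbad.mono hMA
  have ht : ∀ v : Pr k, ∃ t : L, v ∈ S → t ∈ X.Ω ∧
      (X.P v).valuation L (algebraMap k L (α v) - t) < 1 ∧ X.F v t = t := by
    intro v
    by_cases hv : v ∈ S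
    · obtain ⟨t, h1, h2, h3⟩ := exists_t hc hbad ((hS v).1 hv).1 ((hS v).1 hv).2
      exact ⟨t, fun _ => ⟨h1, h2, h3⟩⟩
    · exact ⟨0, fun h => absurd h hv⟩
  choose t ht using ht
  have hdat : DatS X c S D α t :=
    { hc := hc, hS := hS, bad := hbad
      t_mem := fun v hv => (ht v hv).1
      t_val := fun v hv => (ht v hv).2.1
      t_fix := fun v hv => (ht v hv).2.2 }
  -- the classes
  have he : ∀ θ θ' : L, ∃ e : L, e ∈ FF ∧ (θ ∈ X.Ω → θ' ∈ X.Ω → θ ≠ θ' → e ∈ k⟮θ, θ'⟯ ∧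
      ∃ d ∈ k⟮θ, θ'⟯, D θ θ' * Zp X S t θ * Zp X S t θ' = e * d ^ 2) := by
    intro θ θ'
    by_cases h1 : θ ∈ X.Ω ∧ θ' ∈ X.Ω ∧ θ ≠ θ'
    · obtain ⟨h1, h2, h3⟩ := h1
      obtain ⟨e, he, d, hd, hz⟩ := hFs2 θ θ' _ (hdat.z_mem h1 h2 h3) (hdat.z_ne h1 h2 h3)
        (hdat.ev_z h1 h2 h3)
      exact ⟨e, Finset.mem_insert_of_mem (Finset.mem_biUnion.2 ⟨(θ, θ'),
        Finset.mem_product.2 ⟨h1, h2⟩, he⟩), fun _ _ _ => ⟨(hFs1 θ θ' e he).1, d, hd, hz⟩⟩
    · exact ⟨1, Finset.mem_insert_self _ _, fun h2 h3 h4 => absurd ⟨h2, h3, h4⟩ h1⟩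
  choose e heF he using he
  refine ⟨fun a b => ⟨e a b, heF a b⟩, ?_⟩
  have hhe : ∀ {a b : L}, a ∈ X.Ω → b ∈ X.Ω →
      hh (fun a b => ⟨e a b, heF a b⟩) a b = e a b := by
    intro a b ha hb
    rw [hhh]
    exact dif_pos ⟨ha, hb⟩
  -- the options
  set u : Pr k → ℤˣ := fun v => ∏ q ∈ S.filter
    (fun q => minpoly k (t q) = minpoly k (X.st v (t v))),
      X.ch v (X.len v (X.st v (t v))) (aeval (X.st v (t v)) (X.B q (t q))) with hu
  refine bad_of X hm hfin _ S (fun v hv => ((hS v).1 hv).1) t u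
    (fun v hv => ⟨hdat.t_mem v hv, hdat.t_fix v hv⟩) ?_
  intro v hv ρ hρR hρt
  have hρΩ := X.R_subset v hρR
  have htΩ := hdat.t_mem v hv
  -- the product over `q ≠ v`
  have hprod : ∏ q ∈ S.filter (fun q => q ≠ v ∧ X.cmp hm (t q) = X.cmp hm ρ),
      X.ch v (X.len v ρ) (aeval ρ (X.B q (t q))) =
      (∏ q ∈ S.filter (fun q => minpoly k (t q) = minpoly k ρ),
        X.ch v (X.len v ρ) (aeval ρ (X.B q (t q)))) *
      (if X.cmp hm (t v) = X.cmp hm ρ then X.ch v (X.len v ρ) (aeval ρ (X.B v (t v))) else 1) := by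
    have h1 : S.filter (fun q => q ≠ v ∧ X.cmp hm (t q) = X.cmp hm ρ) =
        (S.filter (fun q => minpoly k (t q) = minpoly k ρ)).erase v := by
      ext q
      simp only [Finset.mem_filter, Finset.mem_erase]
      constructor
      · rintro ⟨h1, h2, h3⟩
        exact ⟨h2, h1, (X.cmp_eq hm (hdat.t_mem q h1) hρΩ).1 h3⟩
      · rintro ⟨h2, h1, h3⟩
        exact ⟨h1, h2, (X.cmp_eq hm (hdat.t_mem q h1) hρΩ).2 h3⟩
    rw [h1]
    split_ifs with h2
    · have h3 : v ∈ S.filter (fun q => minpoly k (t q) = minpoly k ρ) :=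
        Finset.mem_filter.2 ⟨hv, (X.cmp_eq hm htΩ hρΩ).1 h2⟩
      rw [← Finset.prod_erase_mul _ _ h3, mul_assoc, Int.units_mul_self, mul_one]
    · have h3 : v ∉ S.filter (fun q => minpoly k (t q) = minpoly k ρ) := fun h3 =>
        h2 ((X.cmp_eq hm htΩ hρΩ).2 (Finset.mem_filter.1 h3).2)
      rw [Finset.erase_eq_of_notMem h3, mul_one]
  rw [hprod]
  unfold gg
  congr 1
  split_ifs with h1
  · have h1' : ρ = X.st v (t v) := h1
    rw [h1']
  · have hst := X.st_mem h4 (hdat.t_fix v hv)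
    have hsΩ := X.R_subset v (Finset.mem_erase.1 hst).2
    obtain ⟨he1, d, hd, hz⟩ := he ρ (X.st v (t v)) hρΩ hsΩ h1
    have h5 : hh (fun a b => ⟨e a b, heF a b⟩) ρ (X.st v (t v)) = e ρ (X.st v (t v)) :=
      hhe hρΩ hsΩ
    change _ = X.chE v _ (hh (fun a b => ⟨e a b, heF a b⟩) ρ (X.st v (t v))) * _ * _
    rw [h5]
    exact hdat.rel h4 hv (Finset.mem_erase.2 ⟨hρt, hρR⟩) h1 he1 hd hz

end final

end Pool.Agent.HG
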