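import Pool.Agent.Helper13.HG.Pla

/-!
# Block G1: the even valuations
-/

set_option autoImplicit false

namespace Pool.Agent.HG

open Polynomial NumberField IsDedekindDomain
open scoped Pointwise IntermediateField

theorem Bad.mono {k L : Type} [Field k] [NumberField k] [Field L] [NumberField L] [Algebra k L]
    {f : k[X]} {M M' : ℕ} {c : k} {α : Pr k → 𝓞 k} {D : L → L → L} (h : Bad f M c α D)
    (hM : M ∣ M') : Bad f M' c α D := by
  have h1 : ∀ {p : ℕ}, ¬ p ∣ M' → ¬ p ∣ M := fun h h' => h (h'.trans hM)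
  have h2 : ∀ {p : ℕ} {v : Pr k} {P : Pr L}, Over M' p v P → Over M p v P :=
    fun h => ⟨h.1, h1 h.2, h.3, h.4⟩
  exact {
    ne := h.ne
    equiv := h.equiv
    root := fun p v hp hpM hv => h.root p v hp (h1 hpM) hv
    good := fun p v P ho => h.good p v P (h2 ho)
    even := fun p v P ho => h.even p v P (h2 ho)
    odd := fun p v P ho => h.odd p v P (h2 ho)
    tangent := fun p v P ho => h.tangent p v P (h2 ho) }

theorem val_p_lt {k : Type} [Field k] [NumberField k] {v : Pr k} {p : ℕ}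
    (hv : (p : 𝓞 k) ∈ v.asIdeal) : v.valuation k (p : k) < 1 := by
  have h1 : (p : k) = (((p : 𝓞 k)) : k) := (map_natCast (algebraMap (𝓞 k) k) p).symm
  rw [h1, val_int_lt]
  exact hv

theorem val_p_ne {k : Type} [Field k] [NumberField k] {v : Pr k} {p : ℕ} (hp : p.Prime) :
    v.valuation k (p : k) ≠ 0 := val_ne_zero v (by exact_mod_cast hp.ne_zero)

namespace Ctx

variable {k L : Type} [Field k] [NumberField k] [Field L] [NumberField L] [Algebra k L]
  [IsGalois k L] {f : k[X]} (X : Ctx k L f)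

include X in
theorem ev_of_not_isOdd {p : ℕ} {v : Pr k} (hp : p.Prime) (hpM : ¬ p ∣ X.M)
    (hv : (p : 𝓞 k) ∈ v.asIdeal) {c : k} (hc : c ≠ 0) (h : ¬ IsOdd v c) : Ev v p c := by
  unfold IsOdd at h
  push Not at h
  obtain ⟨d, hd⟩ := h
  have hd0 : d ≠ 0 := by
    rintro rfl
    rw [map_zero, zero_pow two_ne_zero] at hd
    exact val_ne_zero v hc hd
  obtain ⟨b, hb⟩ := X.unif p v hp hpM hv d hd0
  refine ⟨b, ?_⟩
  rw [map_mul, hd]
  have h2 : v.valuation k d ^ 2 * v.valuation k ((p : k) ^ (2 * b)) =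
      (v.valuation k (d * (p : k) ^ b)) ^ 2 := by
    rw [map_mul, mul_pow, mul_comm 2 b, zpow_mul, map_zpow₀ _ _ (2 : ℤ)]
    norm_cast
  rw [h2, hb, one_pow]

include X in
theorem isOdd_iff {p : ℕ} {v : Pr k} (hp : p.Prime) (hpM : ¬ p ∣ X.M) (hv : (p : 𝓞 k) ∈ v.asIdeal)
    {c : k} (hc : c ≠ 0) : IsOdd v c ↔ Od v p c := by
  constructor
  · intro h
    obtain ⟨a, ha⟩ := X.unif p v hp hpM hv c hc
    rcases Int.even_or_odd' a with ⟨b, rfl | rfl⟩
    · exfalso
      apply h ((p : k) ^ (-b))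
      have h0 : v.valuation k ((p : k) ^ (2 * b)) ≠ 0 :=
        val_ne_zero v (zpow_ne_zero _ (by exact_mod_cast hp.ne_zero))
      apply mul_right_cancel₀ h0
      rw [← map_mul, ha, ← map_pow, ← map_mul, ← zpow_natCast, ← zpow_mul,
        ← zpow_add₀ (by exact_mod_cast hp.ne_zero : (p : k) ≠ 0)]
      have e : -b * ((2 : ℕ) : ℤ) + 2 * b = 0 := by push_cast; ring
      rw [e, zpow_zero, map_one]
    · exact ⟨b, ha⟩
  · rintro ⟨a, ha⟩ d hd
    have hd0 : d ≠ 0 := by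
      rintro rfl
      rw [map_zero, zero_pow two_ne_zero] at hd
      exact val_ne_zero v hc hd
    obtain ⟨b, hb⟩ := X.unif p v hp hpM hv d hd0
    have h1 : v.valuation k (p : k) ^ (2 * a + 1) * v.valuation k c = 1 := by
      rw [mul_comm, ← map_zpow₀, ← map_mul, ha]
    have h2 : v.valuation k (p : k) ^ (2 * b) * v.valuation k c = 1 := by
      rw [hd, mul_comm 2 b, zpow_mul, ← map_zpow₀]
      have e : (v.valuation k ((p : k) ^ b)) ^ (2 : ℤ) * v.valuation k d ^ 2 =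
          (v.valuation k (d * (p : k) ^ b)) ^ 2 := by
        rw [map_mul, mul_pow, mul_comm]
        norm_cast
      rw [e, hb, one_pow]
    have h3 := mul_right_cancel₀ (val_ne_zero v hc) (h1.trans h2.symm)
    have h4 := zpow_right_injective₀ (zero_lt_iff.2 (val_p_ne hp)) (val_p_lt hv).ne h3
    omega

end Ctx

/-- the data of one number `c` with a section -/
structure DatS {k L : Type} [Field k] [NumberField k] [Field L] [NumberField L] [Algebra k L]
    [IsGalois k L] {f : k[X]} (X : Ctx k L f) (c : k) (S : Finset (Pr k)) (D : L → L → L)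
    (α : Pr k → 𝓞 k) (t : Pr k → L) : Prop where
  hc : c ≠ 0
  hS : ∀ v, v ∈ S ↔ Gd X.M v ∧ IsOdd v c
  bad : Bad f X.M c α D
  t_mem : ∀ v ∈ S, t v ∈ X.Ω
  t_val : ∀ v ∈ S, (X.P v).valuation L (algebraMap k L (α v) - t v) < 1
  t_fix : ∀ v ∈ S, X.F v (t v) = t v

open scoped Classical in
/-- the product of the Thue numbers -/
noncomputable def Zp {k L : Type} [Field k] [NumberField k] [Field L] [NumberField L] [Algebra k L]
    [IsGalois k L] {f : k[X]} (X : Ctx k L f) (S : Finset (Pr k)) (t : Pr k → L) (θ : L) : L :=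
  ∏ q ∈ S.filter (fun q => minpoly k (t q) = minpoly k θ), aeval θ (X.B q (t q))

section dat

variable {k L : Type} [Field k] [NumberField k] [Field L] [NumberField L] [Algebra k L]
  [IsGalois k L] {f : k[X]} {X : Ctx k L f}

omit [NumberField k] [IsGalois k L] in
theorem val_alg_int (P : Pr L) (a : 𝓞 k) : P.valuation L (algebraMap k L (a : k)) ≤ 1 := by
  have hco : algebraMap k L (a : k) = ((algebraMap (𝓞 k) (𝓞 L) a : 𝓞 L) : L) :=
    (IsScalarTower.algebraMap_apply (𝓞 k) k L a).symm.trans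
      (IsScalarTower.algebraMap_apply (𝓞 k) (𝓞 L) L a)
  rw [hco]
  exact val_int _ _

theorem lt_or_one {P : Pr L} {z : L} (h : P.valuation L z ≤ 1) :
    P.valuation L z < 1 ∨ P.valuation L z = 1 := h.lt_or_eq

theorem val_sub_le {P : Pr L} {x y : L} (hx : P.valuation L x ≤ 1) (hy : P.valuation L y ≤ 1) :
    P.valuation L (x - y) ≤ 1 := (Valuation.map_sub _ _ _).trans (max_le hx hy)

/-- the root modulo `v` -/
theorem exists_t {c : k} (hc : c ≠ 0) {D : L → L → L} {α : Pr k → 𝓞 k} (hbad : Bad f X.M c α D)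
    {v : Pr k} (hv : Gd X.M v) (ho : IsOdd v c) :
    ∃ t ∈ X.Ω, (X.P v).valuation L (algebraMap k L (α v) - t) < 1 ∧ X.F v t = t := by
  obtain ⟨p, hp, hpM, hpv⟩ := hv
  have h1 := hbad.root p v hp hpM hpv ((X.isOdd_iff hp hpM hpv hc).1 ho)
  rw [← val_lt_over (X.comap v)] at h1
  have h2 : algebraMap k L (f.eval (algebraMap (𝓞 k) k (α v))) =
      algebraMap k L f.leadingCoeff *
        ((f.map (algebraMap k L)).roots.map fun a => algebraMap k L (α v) - a).prod := by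
    have h3 := X.splits.eq_prod_roots
    have h4 := congrArg (fun g => eval (algebraMap k L (α v)) g) h3
    simp only [leadingCoeff_map, eval_mul, eval_C, eval_map, eval₂_hom] at h4
    rw [h4]
    congr 1
    rw [eval_multiset_prod, Multiset.map_map]
    congr 1
    refine Multiset.map_congr rfl fun a _ => ?_
    simp
  rw [h2, map_mul, (val_eq_over (X.comap v)).2 (X.lead p v hp hpM hpv), one_mul] at h1
  have h5 : ∃ t ∈ (f.map (algebraMap k L)).roots,
      (X.P v).valuation L (algebraMap k L (α v) - t) < 1 := by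
    by_contra hcon
    push Not at hcon
    have h6 : ∀ s : Multiset L, (∀ t ∈ s, 1 ≤ (X.P v).valuation L (algebraMap k L (α v) - t)) →
        1 ≤ (X.P v).valuation L (s.map fun a => algebraMap k L (α v) - a).prod := by
      intro s
      induction s using Multiset.induction_on with
      | empty => intro _; simp
      | cons a s ih =>
        intro hs
        rw [Multiset.map_cons, Multiset.prod_cons, map_mul]
        exact one_le_mul (hs a (Multiset.mem_cons_self _ _))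
          (ih fun t ht => hs t (Multiset.mem_cons_of_mem ht))
    exact absurd h1 (not_lt.2 (h6 _ hcon))
  obtain ⟨t, ht, htv⟩ := h5
  have htΩ : t ∈ f.rootSet L := by
    rw [mem_rootSet]
    rw [mem_roots (Polynomial.map_ne_zero (by
      intro h0
      have := X.sepf
      rw [h0] at this
      exact this.ne_zero rfl)), IsRoot.def, eval_map] at ht
    refine ⟨fun h0 => X.sepf.ne_zero h0, ht⟩
  refine ⟨t, (X.mem_Ω t).2 htΩ, htv, ?_⟩
  by_contra hne
  have hF : X.F v t ∈ f.rootSet L := (X.mem_Ω _).1 (X.conj_mem ((X.mem_Ω t).2 htΩ) _)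
  have h7 := X.sep p v (X.P v) (X.isOver hp hpM hpv) _ hF _ htΩ hne
  have h8 : X.F v t - t = (algebraMap k L (α v) - t) - X.F v (algebraMap k L (α v) - t) := by
    rw [map_sub, AlgEquiv.commutes]
    ring
  rw [h8] at h7
  have h9 := Valuation.map_sub_lt ((X.P v).valuation L) htv ((val_lt_conj (X.stab v) _).1 htv)
  rw [h7] at h9
  exact lt_irrefl _ h9

variable {c : k} {S : Finset (Pr k)} {D : L → L → L} {α : Pr k → 𝓞 k} {t : Pr k → L}
  (h : DatS X c S D α t)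

include h

theorem DatS.thue {q : Pr k} (hq : q ∈ S) : ∃ p : ℕ, p.Prime ∧ ¬ p ∣ X.M ∧
    (p : 𝓞 k) ∈ q.asIdeal ∧ IsThue f X.M X.K p q (X.P q) (t q) (X.B q (t q)) := by
  obtain ⟨p, hp, hpM, hpv⟩ := ((h.hS q).1 hq).1
  exact ⟨p, hp, hpM, hpv, X.thue p q (X.isOver hp hpM hpv) _ ((X.mem_Ω _).1 (h.t_mem q hq))
    (h.t_fix q hq)⟩

theorem DatS.val_other {p' : ℕ} {v' : Pr k} {P' : Pr L} (ho : Over X.M p' v' P') {θ : L}
    (hθ : θ ∈ X.Ω) {q : Pr k} (hq : q ∈ S) (hne : v' ≠ q)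
    (hm : minpoly k (t q) = minpoly k θ) : P'.valuation L (aeval θ (X.B q (t q))) = 1 := by
  obtain ⟨p, hp, hpM, hpv, ht⟩ := h.thue hq
  exact ht.unit p' v' P' ho hne θ ((X.mem_Ω _).1 hθ) hm.symm

theorem DatS.val_above {v' : Pr k} (hv : v' ∈ S) {p' : ℕ} {P' : Pr L} (ho : Over X.M p' v' P')
    {θ : L} (hθ : θ ∈ X.Ω) (hm : minpoly k (t v') = minpoly k θ) :
    (P'.valuation L (algebraMap k L (α v') - θ) = 1 →
      P'.valuation L (aeval θ (X.B v' (t v'))) = 1) ∧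
    (P'.valuation L (algebraMap k L (α v') - θ) < 1 →
      P'.valuation L (aeval θ (X.B v' (t v'))) = P'.valuation L (p' : L)) := by
  have ht := X.thue p' v' (X.isOver ho.prime ho.not_dvd ho.mem) _ ((X.mem_Ω _).1 (h.t_mem v' hv))
    (h.t_fix v' hv)
  exact ht.above (α v') (h.t_val v' hv) P' ho θ ((X.mem_Ω _).1 hθ) hm.symm

theorem DatS.minpoly_eq {v' : Pr k} (hv : v' ∈ S) {p' : ℕ} {P' : Pr L} (ho : Over X.M p' v' P')
    {θ : L} (hθ : θ ∈ X.Ω) (hr : P'.valuation L (algebraMap k L (α v') - θ) < 1) :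
    minpoly k (t v') = minpoly k θ := by
  obtain ⟨σ, hσ⟩ := exists_conj' ho.comap (X.comap v')
  have h1 := (val_lt_conj hσ _).1 hr
  rw [map_sub, AlgEquiv.commutes] at h1
  have h2 : σ θ = t v' := by
    by_contra hne
    have h3 := X.sep p' v' (X.P v') (X.isOver ho.prime ho.not_dvd ho.mem) _
      ((X.mem_Ω _).1 (X.conj_mem hθ σ)) _ ((X.mem_Ω _).1 (h.t_mem v' hv)) hne
    have h4 : σ θ - t v' = (algebraMap k L (α v') - t v') - (algebraMap k L (α v') - σ θ) := by ring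
    rw [h4] at h3
    have h5 := Valuation.map_sub_lt ((X.P v').valuation L) (h.t_val v' hv) h1
    rw [h3] at h5
    exact lt_irrefl _ h5
  rw [← h2, minpoly.algEquiv_eq]

theorem DatS.val_Zp_not {p' : ℕ} {v' : Pr k} {P' : Pr L} (ho : Over X.M p' v' P') {θ : L}
    (hθ : θ ∈ X.Ω) (hv : v' ∉ S) : P'.valuation L (Zp X S t θ) = 1 := by
  classical
  unfold Zp
  rw [map_prod]
  refine Finset.prod_eq_one fun q hq => ?_
  obtain ⟨hq, hm⟩ := Finset.mem_filter.1 hq
  exact h.val_other ho hθ hq (by rintro rfl; exact hv hq) hm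

theorem DatS.val_fac {p' : ℕ} {v' : Pr k} {P' : Pr L} (ho : Over X.M p' v' P') {θ : L}
    (hθ : θ ∈ X.Ω) (hr : P'.valuation L (algebraMap k L (α v') - θ) = 1) {q : Pr k}
    (hq : q ∈ S) (hm : minpoly k (t q) = minpoly k θ) :
    P'.valuation L (aeval θ (X.B q (t q))) = 1 := by
  by_cases hqv : v' = q
  · subst hqv
    exact (h.val_above hq ho hθ hm).1 hr
  · exact h.val_other ho hθ hq hqv hm

theorem DatS.val_Zp_unit {p' : ℕ} {v' : Pr k} {P' : Pr L} (ho : Over X.M p' v' P') {θ : L}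
    (hθ : θ ∈ X.Ω) (hr : P'.valuation L (algebraMap k L (α v') - θ) = 1) :
    P'.valuation L (Zp X S t θ) = 1 := by
  classical
  unfold Zp
  rw [map_prod]
  refine Finset.prod_eq_one fun q hq => ?_
  obtain ⟨hq, hm⟩ := Finset.mem_filter.1 hq
  exact h.val_fac ho hθ hr hq hm

theorem DatS.val_Zp_root {p' : ℕ} {v' : Pr k} {P' : Pr L} (ho : Over X.M p' v' P') {θ : L}
    (hθ : θ ∈ X.Ω) (hv : v' ∈ S) (hr : P'.valuation L (algebraMap k L (α v') - θ) < 1) :
    P'.valuation L (Zp X S t θ) = P'.valuation L (p' : L) := by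
  classical
  have hm := h.minpoly_eq hv ho hθ hr
  unfold Zp
  rw [map_prod, ← (h.val_above hv ho hθ hm).2 hr]
  refine Finset.prod_eq_single_of_mem v' (Finset.mem_filter.2 ⟨hv, hm⟩) fun q hq hne => ?_
  obtain ⟨hq, hm⟩ := Finset.mem_filter.1 hq
  exact h.val_other ho hθ hq (Ne.symm hne) hm

theorem DatS.ev_z {θ θ' : L} (hθ : θ ∈ X.Ω) (hθ' : θ' ∈ X.Ω) (hne : θ ≠ θ') (p' : ℕ) (P' : Pr L)
    (hp' : p'.Prime) (hpM : ¬ p' ∣ X.M) (hP' : (p' : 𝓞 L) ∈ P'.asIdeal) :
    Ev P' p' (D θ θ' * Zp X S t θ * Zp X S t θ') := by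
  obtain ⟨v', hco, hmem⟩ := exists_under (k := k) P' hp' hP'
  have ho : Over X.M p' v' P' := ⟨hp', hpM, hmem, hco⟩
  have hr := (X.mem_Ω _).1 hθ
  have hr' := (X.mem_Ω _).1 hθ'
  by_cases hv : v' ∈ S
  · have hod : Od v' p' c := (X.isOdd_iff hp' hpM hmem h.hc).1 ((h.hS v').1 hv).2
    have hle : ∀ x ∈ X.Ω, P'.valuation L (algebraMap k L (α v') - x) ≤ 1 := fun x hx =>
      val_sub_le (val_alg_int _ _) (X.int p' v' P' ho x ((X.mem_Ω _).1 hx))
    rcases lt_or_one (hle θ hθ) with h1 | h1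
    · rcases lt_or_one (hle θ' hθ') with h2 | h2
      · exfalso
        have h3 := X.sep p' v' P' ho θ hr θ' hr' hne
        have h4 : θ - θ' = (algebraMap k L (α v') - θ') - (algebraMap k L (α v') - θ) := by ring
        rw [h4] at h3
        have h5 := Valuation.map_sub_lt (P'.valuation L) h2 h1
        rw [h3] at h5
        exact lt_irrefl _ h5
      · obtain ⟨a, ha⟩ := h.bad.odd p' v' P' ho hod θ hr θ' hr' hne (Or.inl h1)
        refine ⟨a, ?_⟩
        rw [map_mul, map_mul, map_mul, h.val_Zp_root ho hθ hv h1, h.val_Zp_unit ho hθ' h2,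
          mul_one, ← map_mul, ← map_mul, mul_assoc, ← zpow_one_add₀ (by exact_mod_cast hp'.ne_zero),
          add_comm]
        exact ha
    · rcases lt_or_one (hle θ' hθ') with h2 | h2
      · obtain ⟨a, ha⟩ := h.bad.odd p' v' P' ho hod θ hr θ' hr' hne (Or.inr h2)
        refine ⟨a, ?_⟩
        rw [map_mul, map_mul, map_mul, h.val_Zp_unit ho hθ h1, h.val_Zp_root ho hθ' hv h2,
          mul_one, ← map_mul, ← map_mul, mul_assoc, ← zpow_one_add₀ (by exact_mod_cast hp'.ne_zero),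
          add_comm]
        exact ha
      · obtain ⟨a, ha⟩ := h.bad.even p' v' P' ho hod θ hr θ' hr' hne h1 h2
        refine ⟨a, ?_⟩
        rw [map_mul, map_mul, map_mul, h.val_Zp_unit ho hθ h1, h.val_Zp_unit ho hθ' h2,
          mul_one, mul_one, ← map_mul]
        exact ha
  · have hev : Ev v' p' c := X.ev_of_not_isOdd hp' hpM hmem h.hc
      (fun h1 => hv ((h.hS v').2 ⟨⟨p', hp', hpM, hmem⟩, h1⟩))
    obtain ⟨a, ha⟩ := h.bad.good p' v' P' ho hev θ hr θ' hr' hne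
    refine ⟨a, ?_⟩
    rw [map_mul, map_mul, map_mul, h.val_Zp_not ho hθ hv, h.val_Zp_not ho hθ' hv, mul_one, mul_one,
      ← map_mul]
    exact ha

theorem DatS.Zp_ne {θ : L} (hθ : θ ∈ X.Ω) : Zp X S t θ ≠ 0 := by
  classical
  unfold Zp
  rw [Finset.prod_ne_zero_iff]
  intro q hq
  obtain ⟨hq, hm⟩ := Finset.mem_filter.1 hq
  obtain ⟨p, hp, hpM, hpv, ht⟩ := h.thue hq
  exact ht.ne θ ((X.mem_Ω _).1 hθ) hm.symm

theorem DatS.z_ne {θ θ' : L} (hθ : θ ∈ X.Ω) (hθ' : θ' ∈ X.Ω) (hne : θ ≠ θ') :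
    D θ θ' * Zp X S t θ * Zp X S t θ' ≠ 0 :=
  mul_ne_zero (mul_ne_zero (h.bad.ne _ ((X.mem_Ω _).1 hθ) _ ((X.mem_Ω _).1 hθ') hne)
    (h.Zp_ne hθ)) (h.Zp_ne hθ')

omit h in
theorem Zp_fixed {θ : L} {σ : L ≃ₐ[k] L} (hσ : σ θ = θ) : σ (Zp X S t θ) = Zp X S t θ := by
  unfold Zp
  rw [map_prod]
  exact Finset.prod_congr rfl fun q _ => aeval_fixed _ hσ

theorem DatS.D_fixed {θ θ' : L} (hθ : θ ∈ X.Ω) (hθ' : θ' ∈ X.Ω) (hne : θ ≠ θ') {σ : L ≃ₐ[k] L}
    (hσ : σ θ = θ) (hσ' : σ θ' = θ') : σ (D θ θ') = D θ θ' := by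
  rw [h.bad.equiv σ θ ((X.mem_Ω _).1 hθ) θ' ((X.mem_Ω _).1 hθ') hne, hσ, hσ']

theorem DatS.z_mem {θ θ' : L} (hθ : θ ∈ X.Ω) (hθ' : θ' ∈ X.Ω) (hne : θ ≠ θ') :
    D θ θ' * Zp X S t θ * Zp X S t θ' ∈ k⟮θ, θ'⟯ := by
  refine mem_adjoin_of_fixed fun σ hσ hσ' => ?_
  rw [map_mul, map_mul, h.D_fixed hθ hθ' hne hσ hσ', Zp_fixed hσ, Zp_fixed hσ']

end dat

end Pool.Agent.HG
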