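import Pool.Agent.Helper13.HG.Chr

/-!
# The choices of the data at a good prime
-/

set_option autoImplicit false

namespace Pool.Agent.HG

open Polynomial NumberField IsDedekindDomain
open scoped Pointwise IntermediateField

section plc

variable {k L : Type} [Field k] [NumberField k] [Field L] [NumberField L] [Algebra k L]

theorem over_key {v : Pr k} {P : Pr L}
    (h : P.asIdeal.comap (algebraMap (𝓞 k) (𝓞 L)) = v.asIdeal) {x : k} (hx : v.valuation k x ≤ 1) :
    P.valuation L (algebraMap k L x) ≤ 1 ∧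
      (P.valuation L (algebraMap k L x) < 1 ↔ v.valuation k x < 1) := by
  obtain ⟨a, b, hb, hab⟩ := exists_frac v hx
  have hco : ∀ a : 𝓞 k, algebraMap k L (a : k) = ((algebraMap (𝓞 k) (𝓞 L) a : 𝓞 L) : L) := by
    intro a
    exact (IsScalarTower.algebraMap_apply (𝓞 k) k L a).symm.trans
      (IsScalarTower.algebraMap_apply (𝓞 k) (𝓞 L) L a)
  have hm : ∀ a : 𝓞 k, algebraMap (𝓞 k) (𝓞 L) a ∈ P.asIdeal ↔ a ∈ v.asIdeal := by
    intro a
    rw [← h, Ideal.mem_comap]
  have h1 : P.valuation L (algebraMap k L (b : k)) = 1 := by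
    rw [hco, val_int_one, hm]
    exact hb
  have h2 : v.valuation k (b : k) = 1 := (val_int_one v b).2 hb
  have h3 := congrArg (fun t => P.valuation L (algebraMap k L t)) hab
  simp only [map_mul, h1, mul_one] at h3
  have h4 := congrArg (v.valuation k) hab
  rw [map_mul, h2, mul_one] at h4
  rw [h3, h4, hco, val_int_lt, val_int_lt, hm]
  exact ⟨val_int _ _, Iff.rfl⟩

theorem val_lt_over {v : Pr k} {P : Pr L}
    (h : P.asIdeal.comap (algebraMap (𝓞 k) (𝓞 L)) = v.asIdeal) {x : k} :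
    P.valuation L (algebraMap k L x) < 1 ↔ v.valuation k x < 1 := by
  by_cases hx : v.valuation k x ≤ 1
  · exact (over_key h hx).2
  · have hx0 : x ≠ 0 := by
      rintro rfl
      exact hx (by rw [map_zero]; exact zero_le)
    have h1 : v.valuation k x⁻¹ < 1 := by
      rw [map_inv₀]
      exact (inv_lt_one₀ (zero_lt_iff.2 (val_ne_zero v hx0))).2 (not_le.1 hx)
    have h2 := (over_key h h1.le).2.2 h1
    rw [map_inv₀, map_inv₀, inv_lt_one₀ (zero_lt_iff.2 (val_ne_zero P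
      ((map_ne_zero (algebraMap k L)).2 hx0)))] at h2
    exact ⟨fun h3 => absurd (h3.trans h2) (lt_irrefl _), fun h3 => absurd h3.le hx⟩

theorem val_le_over {v : Pr k} {P : Pr L}
    (h : P.asIdeal.comap (algebraMap (𝓞 k) (𝓞 L)) = v.asIdeal) {x : k} :
    P.valuation L (algebraMap k L x) ≤ 1 ↔ v.valuation k x ≤ 1 := by
  by_cases hx0 : x = 0
  · subst hx0
    simp
  have h1 := val_lt_over h (x := x⁻¹)
  rw [map_inv₀, map_inv₀, map_inv₀, inv_lt_one₀ (zero_lt_iff.2 (val_ne_zero P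
      ((map_ne_zero (algebraMap k L)).2 hx0))), inv_lt_one₀ (zero_lt_iff.2 (val_ne_zero v hx0))] at h1
  rw [← not_lt, ← not_lt, h1]

theorem val_eq_over {v : Pr k} {P : Pr L}
    (h : P.asIdeal.comap (algebraMap (𝓞 k) (𝓞 L)) = v.asIdeal) {x : k} :
    P.valuation L (algebraMap k L x) = 1 ↔ v.valuation k x = 1 := by
  have h1 := val_lt_over h (x := x)
  have h2 := val_le_over h (x := x)
  constructor
  · intro h3
    exact le_antisymm (h2.1 h3.le) (not_lt.1 fun h4 => by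
      have := h1.2 h4
      rw [h3] at this
      exact lt_irrefl _ this)
  · intro h3
    exact le_antisymm (h2.2 h3.le) (not_lt.1 fun h4 => by
      have := h1.1 h4
      rw [h3] at this
      exact lt_irrefl _ this)

/-- a prime of `L` above a prime number lies over a prime of `k` -/
theorem exists_under (P : Pr L) {p : ℕ} (hp : p.Prime) (hP : (p : 𝓞 L) ∈ P.asIdeal) :
    ∃ v : Pr k, P.asIdeal.comap (algebraMap (𝓞 k) (𝓞 L)) = v.asIdeal ∧ (p : 𝓞 k) ∈ v.asIdeal := by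
  have := P.isPrime
  have h1 : (p : 𝓞 k) ∈ P.asIdeal.comap (algebraMap (𝓞 k) (𝓞 L)) := by
    rw [Ideal.mem_comap, map_natCast]
    exact hP
  refine ⟨⟨P.asIdeal.comap (algebraMap (𝓞 k) (𝓞 L)), Ideal.IsPrime.comap _, ?_⟩, rfl, h1⟩
  intro h
  rw [h, Ideal.mem_bot] at h1
  exact hp.ne_zero (by exact_mod_cast h1)

/-- elements of `k(θ, θ')` -/
theorem mem_adjoin_of_fixed [IsGalois k L] {θ θ' z : L}
    (h : ∀ σ : L ≃ₐ[k] L, σ θ = θ → σ θ' = θ' → σ z = z) : z ∈ k⟮θ, θ'⟯ := by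
  have : FiniteDimensional k L := inferInstance
  rw [← IsGalois.fixedField_fixingSubgroup k⟮θ, θ'⟯, IntermediateField.mem_fixedField_iff]
  intro σ hσ
  rw [IntermediateField.mem_fixingSubgroup_iff] at hσ
  refine h σ (hσ _ ?_) (hσ _ ?_)
  · exact IntermediateField.subset_adjoin _ _ (Set.mem_insert _ _)
  · exact IntermediateField.subset_adjoin _ _ (Set.mem_insert_of_mem _ (Set.mem_singleton _))

omit [NumberField k] [NumberField L] in
theorem fixed_of_mem_adjoin {θ θ' z : L} (hz : z ∈ k⟮θ, θ'⟯) {σ : L ≃ₐ[k] L} (h : σ θ = θ)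
    (h' : σ θ' = θ') : σ z = z := by
  have h1 : k⟮θ, θ'⟯ ≤ IntermediateField.fixedField (Subgroup.zpowers σ) := by
    rw [IntermediateField.adjoin_le_iff]
    rintro x hx
    have hx' : σ x = x := by
      rcases hx with rfl | hx
      · exact h
      · rw [Set.mem_singleton_iff.1 hx]
        exact h'
    intro ⟨τ, hτ⟩
    obtain ⟨i, rfl⟩ := Subgroup.mem_zpowers_iff.1 hτ
    have h2 : σ ∈ MulAction.stabilizer (L ≃ₐ[k] L) x := hx'
    exact Subgroup.zpow_mem _ h2 i
  have h2 := h1 hz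
  exact h2 ⟨σ, Subgroup.mem_zpowers σ⟩

omit [NumberField k] [NumberField L] in
theorem aeval_fixed {θ : L} (B : k[X]) {σ : L ≃ₐ[k] L} (h : σ θ = θ) :
    σ (aeval θ B) = aeval θ B := by
  have h1 : (σ : L →ₐ[k] L) (aeval θ B) = aeval ((σ : L →ₐ[k] L) θ) B := (aeval_algHom_apply _ _ _).symm
  have h2 : (σ : L →ₐ[k] L) θ = θ := h
  rw [h2] at h1
  exact h1

end plc

section nmodd

variable {k L : Type} [Field k] [NumberField k] [Field L] [NumberField L] [Algebra k L]

/-- an even norm: the prime lies above `2` -/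
theorem two_mem_of_even {v : Pr k} (h : Even (nm v)) : (2 : 𝓞 k) ∈ v.asIdeal := by
  have hfin : Finite (𝓞 k ⧸ v.asIdeal) := Ideal.finiteQuotientOfFreeOfNeBot _ v.ne_bot
  have := Fintype.ofFinite (𝓞 k ⧸ v.asIdeal)
  have hp := v.isPrime
  have h1 : 2 ∣ Fintype.card (𝓞 k ⧸ v.asIdeal) := by
    have h2 : nm v = Nat.card (𝓞 k ⧸ v.asIdeal) := rfl
    rw [← Nat.card_eq_fintype_card, ← h2]
    exact h.two_dvd
  have : Fact (Nat.Prime 2) := ⟨Nat.prime_two⟩
  obtain ⟨x, hx⟩ := exists_prime_addOrderOf_dvd_card 2 h1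
  have hx0 : x ≠ 0 := by
    rintro rfl
    rw [addOrderOf_zero] at hx
    exact absurd hx (by norm_num)
  have h3 : (2 : 𝓞 k ⧸ v.asIdeal) * x = 0 := by
    have := addOrderOf_nsmul_eq_zero x
    rw [hx, nsmul_eq_mul] at this
    exact_mod_cast this
  have h4 := (mul_eq_zero.1 h3).resolve_right hx0
  rw [← map_ofNat (Ideal.Quotient.mk v.asIdeal) 2, Ideal.Quotient.eq_zero_iff_mem] at h4
  exact h4

theorem eq_of_mem_mem {P : Pr L} {p q : ℕ} (hp : p.Prime) (hq : q.Prime)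
    (hP : (p : 𝓞 L) ∈ P.asIdeal) (hQ : (q : 𝓞 L) ∈ P.asIdeal) : p = q := by
  have h1 : (p : ℤ) ∣ (q : ℤ) := dvd_of_mem hp hP (by exact_mod_cast hQ)
  exact (Nat.prime_dvd_prime_iff_eq hp hq).1 (by exact_mod_cast h1)

end nmodd

namespace Ctx

variable {k L : Type} [Field k] [NumberField k] [Field L] [NumberField L] [Algebra k L]
  [IsGalois k L] {f : k[X]} (X : Ctx k L f)

theorem isOver {p : ℕ} {v : Pr k} (hp : p.Prime) (hpM : ¬ p ∣ X.M) (hv : (p : 𝓞 k) ∈ v.asIdeal) :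
    Over X.M p v (X.P v) := ⟨hp, hpM, hv, X.comap v⟩

theorem mem_P {p : ℕ} {v : Pr k} (hv : (p : 𝓞 k) ∈ v.asIdeal) : (p : 𝓞 L) ∈ (X.P v).asIdeal := by
  rw [← X.comap v, Ideal.mem_comap, map_natCast] at hv
  exact hv

theorem two_ne {p : ℕ} (hpM : ¬ p ∣ X.M) : p ≠ 2 := by
  rintro rfl
  exact hpM X.two

theorem two_unit {p : ℕ} {v : Pr k} (hp : p.Prime) (hpM : ¬ p ∣ X.M) (hv : (p : 𝓞 k) ∈ v.asIdeal) :
    (X.P v).valuation L (2 : L) = 1 := by
  have h1 : (2 : L) = (((2 : 𝓞 L)) : L) := (map_ofNat (algebraMap (𝓞 L) L) 2).symm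
  rw [h1, val_int_one]
  intro h
  exact X.two_ne hpM (eq_of_mem_mem hp Nat.prime_two (X.mem_P hv) (by exact_mod_cast h))

theorem nm_odd {p : ℕ} {v : Pr k} (hp : p.Prime) (hpM : ¬ p ∣ X.M) (hv : (p : 𝓞 k) ∈ v.asIdeal) :
    Odd (nm v) := by
  by_contra h
  rw [Nat.not_odd_iff_even] at h
  exact X.two_ne hpM (eq_of_mem_mem hp Nat.prime_two hv (by exact_mod_cast two_mem_of_even h))

theorem stab_pow (v : Pr k) (n : ℕ) (a : 𝓞 L) :
    a ∈ (X.P v).asIdeal ↔ (X.F v ^ n) • a ∈ (X.P v).asIdeal := by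
  induction n generalizing a with
  | zero => rw [pow_zero, one_smul]
  | succ n ih => rw [pow_succ, mul_smul, ← ih, ← X.stab]

theorem frob_pow (v : Pr k) (n : ℕ) {z : L} (hz : (X.P v).valuation L z ≤ 1) :
    (X.P v).valuation L ((X.F v ^ n) z - z ^ nm v ^ n) < 1 := by
  induction n with
  | zero =>
    rw [pow_zero, pow_zero, pow_one]
    simp
  | succ n ih =>
    have h1 : (X.F v ^ (n + 1)) z - z ^ nm v ^ (n + 1) =
        X.F v ((X.F v ^ n) z - z ^ nm v ^ n) + (X.F v (z ^ nm v ^ n) - (z ^ nm v ^ n) ^ nm v) := by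
      rw [map_sub, pow_succ' (X.F v), AlgEquiv.mul_apply, pow_succ (nm v), pow_mul]
      ring
    rw [h1]
    refine Valuation.map_add_lt _ ((val_lt_conj (X.stab v) _).1 ih) (X.frob v _ ?_)
    rw [map_pow]
    exact pow_le_one' hz _

theorem un_of_fixed {v : Pr k} {n : ℕ} {z : L} (hz : (X.P v).valuation L z = 1)
    (hF : (X.F v ^ n) z = z) : Un (X.P v) (nm v ^ n) z := by
  refine ⟨hz, Cg.symm ⟨hz.le, by rw [map_pow, hz, one_pow], ?_⟩⟩
  have := X.frob_pow v n hz.le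
  rwa [hF] at this

theorem ch_eq (v : Pr k) (n : ℕ) (z : L) : X.ch v n z = eul (X.P v) (nm v ^ n) z := rfl

omit [NumberField k] [NumberField L] [IsGalois k L] in
theorem pow_apply' (σ : L ≃ₐ[k] L) (n : ℕ) (z : L) : (σ ^ n) z = (σ : L → L)^[n] z := by
  induction n generalizing z with
  | zero => rfl
  | succ n ih => rw [pow_succ, AlgEquiv.mul_apply, ih, Function.iterate_succ_apply]

theorem len_pos (v : Pr k) (θ : L) : 0 < X.len v θ := by
  unfold len
  rw [Function.minimalPeriod_pos_iff_mem_periodicPts]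
  refine ⟨orderOf (X.F v), orderOf_pos _, ?_⟩
  unfold Function.IsPeriodicPt Function.IsFixedPt
  rw [← pow_apply', pow_orderOf_eq_one]
  rfl

theorem fix_of_dvd {v : Pr k} {θ : L} {n : ℕ} (h : X.len v θ ∣ n) : (X.F v ^ n) θ = θ := by
  rw [pow_apply']
  exact (Function.isPeriodicPt_minimalPeriod _ _).trans_dvd h

theorem rep_mem (v : Pr k) (θ : L) : ∃ i : ℤ, X.rep v θ = (X.F v ^ i) θ := by
  unfold rep
  have h1 := Quotient.exact (Quotient.out_eq
    (Quotient.mk (MulAction.orbitRel (Subgroup.zpowers (X.F v)) L) θ))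
  obtain ⟨⟨σ, hσ⟩, h2⟩ := MulAction.orbitRel_apply.1 h1
  obtain ⟨i, rfl⟩ := Subgroup.mem_zpowers_iff.1 hσ
  exact ⟨i, h2.symm⟩

theorem conj_mem {θ : L} (h : θ ∈ X.Ω) (σ : L ≃ₐ[k] L) : σ θ ∈ X.Ω := by
  rw [mem_Ω, mem_rootSet] at h ⊢
  refine ⟨h.1, ?_⟩
  have h1 : aeval (σ θ) f = σ (aeval θ f) := aeval_algHom_apply (σ : L →ₐ[k] L) θ f
  rw [h1, h.2, map_zero]

theorem R_subset (v : Pr k) : X.R v ⊆ X.Ω := by
  classical
  intro ρ hρ
  obtain ⟨θ, hθ, rfl⟩ := Finset.mem_image.1 hρ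
  obtain ⟨i, hi⟩ := X.rep_mem v θ
  rw [hi]
  exact X.conj_mem hθ _

omit [NumberField k] [NumberField L] [IsGalois k L] in
theorem zpow_fixed {σ : L ≃ₐ[k] L} {θ : L} (h : σ θ = θ) (i : ℤ) : (σ ^ i) θ = θ := by
  have h2 : σ ∈ MulAction.stabilizer (L ≃ₐ[k] L) θ := h
  exact Subgroup.zpow_mem _ h2 i

theorem card_Ω : X.Ω.card = f.natDegree := by
  classical
  have h1 : (f.rootSet L).ncard = f.natDegree := by
    have := card_rootSet_eq_natDegree X.sepf X.splits
    rwa [← Nat.card_eq_fintype_card] at this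
  rw [← h1, Set.ncard_eq_toFinset_card (f.rootSet L) (f.rootSet_finite L)]
  rfl

open scoped Classical in
theorem erase_nonempty (h4 : 4 ≤ f.natDegree) {v : Pr k} {o : L} (ho : X.F v o = o) :
    ((X.R v).erase o).Nonempty := by
  obtain ⟨θ, hθ, hne⟩ := Finset.exists_mem_ne (s := X.Ω) (by rw [X.card_Ω]; omega) o
  refine ⟨X.rep v θ, Finset.mem_erase.2 ⟨?_, Finset.mem_image_of_mem _ hθ⟩⟩
  intro h
  obtain ⟨i, hi⟩ := X.rep_mem v θ
  apply hne
  have h1 := zpow_fixed ho (-i)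
  rw [h] at hi
  rw [hi] at h1
  rw [zpow_neg] at h1
  have h2 : (X.F v ^ i)⁻¹ ((X.F v ^ i) θ) = θ := by
    rw [← AlgEquiv.mul_apply, inv_mul_cancel]
    rfl
  rw [h2] at h1
  rw [h1, hi]

open scoped Classical in
/-- the representative of an orbit other than `{o}` which has the least power of `2` in its length -/
noncomputable def st (v : Pr k) (o : L) : L :=
  if h : ((X.R v).erase o).Nonempty then
    (Finset.exists_min_image _ (fun ρ => padicValNat 2 (X.len v ρ)) h).choose else 0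

open scoped Classical in
theorem st_mem (h4 : 4 ≤ f.natDegree) {v : Pr k} {o : L} (ho : X.F v o = o) :
    X.st v o ∈ (X.R v).erase o := by
  unfold st
  rw [dif_pos (X.erase_nonempty h4 ho)]
  exact (Finset.exists_min_image ((X.R v).erase o) (fun ρ => padicValNat 2 (X.len v ρ))
    (X.erase_nonempty h4 ho)).choose_spec.1

open scoped Classical in
theorem st_le (h4 : 4 ≤ f.natDegree) {v : Pr k} {o : L} (ho : X.F v o = o) {ρ : L}
    (hρ : ρ ∈ (X.R v).erase o) :
    padicValNat 2 (X.len v (X.st v o)) ≤ padicValNat 2 (X.len v ρ) := by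
  unfold st
  rw [dif_pos (X.erase_nonempty h4 ho)]
  exact (Finset.exists_min_image ((X.R v).erase o) (fun ρ => padicValNat 2 (X.len v ρ))
    (X.erase_nonempty h4 ho)).choose_spec.2 ρ hρ

open scoped Classical in
/-- the quotient of the degrees is odd -/
theorem odd_quot (h4 : 4 ≤ f.natDegree) {v : Pr k} {o : L} (ho : X.F v o = o) {ρ : L}
    (hρ : ρ ∈ (X.R v).erase o) :
    Odd (Nat.lcm (X.len v ρ) (X.len v (X.st v o)) / X.len v ρ) := by
  have h1 := X.st_le h4 ho hρ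
  have ha := X.len_pos v ρ
  have hb := X.len_pos v (X.st v o)
  generalize X.len v ρ = a at *
  generalize X.len v (X.st v o) = b at *
  by_contra h
  rw [Nat.not_odd_iff_even] at h
  obtain ⟨t, ht⟩ := Nat.dvd_lcm_left a b
  rw [ht, Nat.mul_div_cancel_left _ ha] at h
  obtain ⟨s, hs⟩ := h.two_dvd
  -- `lcm a b = 2 s a`; but `s a` is a common multiple of `a` and `b`
  have h2 : b ∣ s * a := by
    have h3 : b ∣ 2 * (s * a) := by
      have := Nat.dvd_lcm_right a b
      rw [ht, hs] at this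
      have e : a * (2 * s) = 2 * (s * a) := by ring
      rwa [e] at this
    have : Fact (Nat.Prime 2) := ⟨Nat.prime_two⟩
    have hs0 : s ≠ 0 := by
      rintro rfl
      rw [mul_zero] at hs
      subst hs
      rw [mul_zero] at ht
      exact (Nat.lcm_ne_zero ha.ne' hb.ne') ht
    obtain ⟨b', hb'⟩ := @pow_padicValNat_dvd 2 b
    have hb0 : b' ≠ 0 := by
      rintro rfl
      rw [mul_zero] at hb'
      exact hb.ne' hb'
    have hodd : ¬ 2 ∣ b' := by
      intro ⟨c, hc⟩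
      have h5 : 2 ^ (padicValNat 2 b + 1) ∣ b := ⟨c, by rw [pow_succ, mul_assoc, ← hc, ← hb']⟩
      exact pow_succ_padicValNat_not_dvd hb.ne' h5
    have hcop : Nat.Coprime (2 ^ padicValNat 2 b) b' :=
      Nat.Coprime.pow_left _ ((Nat.Prime.coprime_iff_not_dvd Nat.prime_two).2 hodd)
    rw [hb']
    refine Nat.Coprime.mul_dvd_of_dvd_of_dvd hcop ?_ ?_
    · exact ((pow_dvd_pow 2 h1).trans pow_padicValNat_dvd).trans (Dvd.intro_left _ rfl)
    · have h6 : b' ∣ 2 * (s * a) := (Dvd.intro_left _ hb'.symm).trans h3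
      exact (Nat.Coprime.dvd_mul_left (((Nat.Prime.coprime_iff_not_dvd Nat.prime_two).2 hodd).symm)).1 h6
  have h7 : Nat.lcm a b ∣ s * a := Nat.lcm_dvd (Dvd.intro_left _ rfl) h2
  have hs0 : 0 < s * a := by
    rcases Nat.eq_zero_or_pos (s * a) with h8 | h8
    · exfalso
      have e : a * t = 2 * (s * a) := by rw [hs]; ring
      rw [e, h8] at ht
      exact (Nat.lcm_ne_zero ha.ne' hb.ne') ht
    · exact h8
  have h9 := Nat.le_of_dvd hs0 h7
  have e : a * t = 2 * (s * a) := by rw [hs]; ring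
  omega

end Ctx

end Pool.Agent.HG
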